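import Pool.Agent.Helper45.U4.St3

set_option autoImplicit false

open Module Classical
open scoped LinearAlgebra.Projectivization

namespace Pool.Agent.Helper45.U4

open Pool.Agent.Helper53.PB

theorem hAVL : StAVL := by
  intro F V _ _ _ _ _ _ W Y hF hW hY hcard
  have hne : ∀ g : Y, (g : Dual F V).domRestrict W ≠ 0 := by
    rintro ⟨g, hg⟩ h0
    apply hY g hg
    intro x hx
    exact LinearMap.congr_fun h0 ⟨x, hx⟩
  obtain ⟨Z, hZ⟩ : ∃ Z : Finset (ℙ F (Dual F W)),
      Z = Finset.univ.image (fun g : Y => Projectivization.mk F _ (hne g)) := ⟨_, rfl⟩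
  have hZc : Z.card ≤ 20 := by
    rw [hZ]
    refine Finset.card_image_le.trans ?_
    rw [Finset.card_univ, Fintype.card_coe]
    exact hcard
  have h21 : (Finset.univ : Finset (ℙ F (Dual F W))).card = 21 := by
    rw [← pts_univ, card_pts, finrank_top, Subspace.dual_finrank_eq, hW, hF]
    decide
  obtain ⟨G, hG⟩ : ∃ G, G ∉ Z := by
    by_contra hcon
    push Not at hcon
    have h1 : (Finset.univ : Finset (ℙ F (Dual F W))).card ≤ Z.card :=
      Finset.card_le_card fun G _ => hcon G
    omega
  refine ⟨(LinearMap.ker G.rep).map W.subtype, Submodule.map_subtype_le _ _, ?_, ?_⟩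
  · have h1 := Module.Dual.finrank_ker_add_one_of_ne_zero G.rep_nonzero
    rw [← (Submodule.equivMapOfInjective W.subtype W.injective_subtype _).finrank_eq]
    omega
  · intro g hg hle
    apply hG
    rw [hZ, Finset.mem_image]
    refine ⟨⟨g, hg⟩, Finset.mem_univ _, ?_⟩
    have h1 : LinearMap.ker G.rep ≤ LinearMap.ker (g.domRestrict W) := by
      intro x hx
      exact hle (x := (x : V)) ⟨x, hx, rfl⟩
    have h2 : g.domRestrict W ∈ Submodule.span F (Set.range fun _ : Unit => G.rep) := by
      apply mem_span_of_iInf_ker_le_ker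
      rwa [ciInf_const]
    rw [Set.range_const] at h2
    obtain ⟨c, hc⟩ := Submodule.mem_span_singleton.1 h2
    rw [← G.mk_rep, Projectivization.mk_eq_mk_iff']
    exact ⟨c, hc⟩

end Pool.Agent.Helper45.U4
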