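import Pool.Agent.Helper45.U4.St1

set_option autoImplicit false

open Module Classical
open scoped LinearAlgebra.Projectivization

namespace Pool.Agent.Helper45.U4

open Pool.Agent.Helper53.PB

theorem hCON : StCON := by
  intro F V _ _ _ _ φ r hφ A Q hQ
  have key : ∀ (k : ℕ) (U W : Submodule F V), φ.toPolar.Gen U → φ.toPolar.Gen W → A ≤ U → A ≤ W →
      r ≤ finrank F (U ⊓ W : Submodule F V) + k → Q U → Q W := by
    intro k
    induction k with
    | zero =>
      intro U W hU hW _ _ hk hQU
      have h1 : U ⊓ W = U := by
        apply Submodule.eq_of_le_of_finrank_le inf_le_left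
        rw [hφ.gen U hU]
        omega
      have h2 : U = W := by
        apply Submodule.eq_of_le_of_finrank_eq (inf_eq_left.1 h1)
        rw [hφ.gen U hU, hφ.gen W hW]
      rw [← h2]
      exact hQU
    | succ k ih =>
      intro U W hU hW hAU hAW hk hQU
      by_cases hWU : W ≤ U
      · have h2 : W = U := by
          apply Submodule.eq_of_le_of_finrank_eq hWU
          rw [hφ.gen U hU, hφ.gen W hW]
        rw [h2]
        exact hQU
      · obtain ⟨x, hxW, hxU⟩ := Set.not_subset.1 hWU
        have hxs : φ.toPolar.sing x := hW.1.1 x hxW
        have hnot := hU.not_le hxs hxU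
        have hE := Polar.finrank_inf_ker U (φ.toPolar.f x) hnot
        obtain ⟨E, hEdef⟩ : ∃ E, E = U ⊓ LinearMap.ker (φ.toPolar.f x) := ⟨_, rfl⟩
        rw [← hEdef, hφ.gen U hU] at hE
        have hEU : E ≤ U := by
          rw [hEdef]
          exact inf_le_left
        have hEts : φ.toPolar.TS (E ⊔ Submodule.span F {x}) := by
          apply (hU.1.mono hEU).sup_span hxs
          intro y hy
          rw [hEdef] at hy
          exact φ.toPolar.symm _ _ hy.2
        have hx0 : x ≠ 0 := fun h => hxU (h ▸ zero_mem _)
        have hinf : E ⊓ Submodule.span F {x} = ⊥ := by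
          rw [eq_bot_iff]
          rintro y ⟨hy1, hy2⟩
          obtain ⟨c, rfl⟩ := Submodule.mem_span_singleton.1 hy2
          by_cases hc : c = 0
          · rw [hc, zero_smul]
            exact zero_mem _
          · exact absurd ((Submodule.smul_mem_iff U hc).1 (hEU hy1)) hxU
        have hdim := Submodule.finrank_sup_add_finrank_inf_eq E (Submodule.span F {x})
        rw [hinf, finrank_bot, finrank_span_singleton hx0] at hdim
        obtain ⟨U', hU'def⟩ : ∃ U', U' = E ⊔ Submodule.span F {x} := ⟨_, rfl⟩
        rw [← hU'def] at hEts hdim
        have hU'r : finrank F U' = r := by omega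
        have hU'g : φ.toPolar.Gen U' := Polar.gen_of_finrank hφ.gen hEts hU'r
        have hEU' : E ≤ U' := by
          rw [hU'def]
          exact le_sup_left
        have hxU' : x ∈ U' := by
          rw [hU'def]
          exact Submodule.mem_sup_right (Submodule.mem_span_singleton_self _)
        have hUWE : U ⊓ W ≤ E := by
          intro y hy
          rw [hEdef]
          exact ⟨hy.1, hW.1.2 x hxW y hy.2⟩
        have hAU' : A ≤ U' := (le_inf hAU hAW).trans (hUWE.trans hEU')
        have hUU' : finrank F (U ⊓ U' : Submodule F V) + 1 = r := by
          have h1 : E ≤ U ⊓ U' := le_inf hEU hEU'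
          have h2 := Submodule.finrank_mono h1
          have h3 : U ⊓ U' < U' := by
            refine lt_of_le_of_ne inf_le_right ?_
            intro h4
            apply hxU
            have h5 : x ∈ U ⊓ U' := by
              rw [h4]
              exact hxU'
            exact h5.1
          have h4 := Submodule.finrank_lt_finrank_of_lt h3
          omega
        have hQU' := hQ U U' hU hU'g hAU hAU' hUU' hQU
        apply ih U' W hU'g hW hAU' hAW _ hQU'
        have h5 : U ⊓ W < U' ⊓ W := by
          refine lt_of_le_of_ne (le_inf (hUWE.trans hEU') inf_le_right) ?_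
          intro h6
          apply hxU
          have h7 : x ∈ U ⊓ W := by
            rw [h6]
            exact ⟨hxU', hxW⟩
          exact h7.1
        have h6 := Submodule.finrank_lt_finrank_of_lt h5
        omega
  intro U W hU hW hAU hAW hQU
  exact key r U W hU hW hAU hAW (Nat.le_add_left _ _) hQU

end Pool.Agent.Helper45.U4
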