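import Pool.Agent.Helper45.U4.St3

/-!
# Project U4, module DBL: double blocking multisets of ten points in `PG(2,4)`
-/

set_option autoImplicit false

open Module Classical
open scoped LinearAlgebra.Projectivization

namespace Pool.Agent.Helper45.U4

open Pool.Agent.Helper53.PB

section
variable {F E : Type} [Field F] [AddCommGroup E] [Module F E] [Finite F] [Finite E] [FiniteDimensional F E]

/-- weight of a subspace -/
noncomputable def wt (K : ℙ F E → ℕ) (L : Submodule F E) : ℕ := ∑ y ∈ pts L, K y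

theorem mem_line_swap {P Q y : ℙ F E} (hyP : y ≠ P) (hQP : Q ≠ P) :
    y.rep ∈ line P Q ↔ Q.rep ∈ line P y := by
  constructor
  · intro h
    rw [line_eq (Ne.symm hQP) h hyP]
    exact right_mem_line _ _
  · intro h
    rw [line_eq (Ne.symm hyP) h hQP]
    exact right_mem_line _ _

theorem inf_one (h3 : finrank F E = 3) {M N : Submodule F E} (hM : finrank F M = 2) (hN : finrank F N = 2)
    (hne : M ≠ N) : finrank F (M ⊓ N : Submodule F E) = 1 := by
  have h1 := Submodule.finrank_sup_add_finrank_inf_eq M N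
  have h2 : finrank F (M ⊔ N : Submodule F E) ≤ 3 := h3 ▸ Submodule.finrank_le _
  have h4 : 2 < finrank F (M ⊔ N : Submodule F E) := by
    rw [← hM]
    apply Submodule.finrank_lt_finrank_of_lt
    refine lt_of_le_of_ne le_sup_left ?_
    intro h5
    have h6 : N ≤ M := by
      rw [h5]
      exact le_sup_right
    exact hne (Submodule.eq_of_le_of_finrank_eq h6 (by rw [hM, hN])).symm
  omega

theorem star (hF : Nat.card F = 4) (h3 : finrank F E = 3) (K : ℙ F E → ℕ) (P : ℙ F E) {M0 : Submodule F E}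
    (hM0 : finrank F M0 = 2) (hP : P.rep ∉ M0) :
    ∑ Q ∈ pts M0, wt K (line P Q) = ∑ y, K y + 4 * K P := by
  have hQP : ∀ Q ∈ pts M0, Q ≠ P := by
    rintro Q hQ rfl
    exact hP (mem_pts.1 hQ)
  have h1 : ∀ Q ∈ pts M0, wt K (line P Q) = ∑ y, if y.rep ∈ line P Q then K y else 0 := by
    intro Q _
    unfold wt pts
    rw [Finset.sum_filter]
  rw [Finset.sum_congr rfl h1, Finset.sum_comm]
  have h2 : ∀ y : ℙ F E, ∑ Q ∈ pts M0, (if y.rep ∈ line P Q then K y else 0)
      = K y + (if y = P then 4 * K P else 0) := by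
    intro y
    rw [← Finset.sum_filter, Finset.sum_const, smul_eq_mul]
    by_cases hy : y = P
    · subst hy
      rw [if_pos rfl]
      have h4 : (pts M0).filter (fun Q => y.rep ∈ line y Q) = pts M0 := by
        apply Finset.filter_true_of_mem
        intro Q _
        exact left_mem_line _ _
      rw [h4, card_pts, hF, hM0, geo_two]
      ring
    · rw [if_neg hy, add_zero]
      have h4 : (pts M0).filter (fun Q => y.rep ∈ line P Q) = pts (M0 ⊓ line P y) := by
        ext Q
        rw [Finset.mem_filter, mem_pts, mem_pts, Submodule.mem_inf]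
        constructor
        · rintro ⟨h5, h6⟩
          exact ⟨h5, (mem_line_swap hy (hQP Q (mem_pts.2 h5))).1 h6⟩
        · rintro ⟨h5, h6⟩
          exact ⟨h5, (mem_line_swap hy (hQP Q (mem_pts.2 h5))).2 h6⟩
      have h5 : finrank F (M0 ⊓ line P y : Submodule F E) = 1 := by
        apply inf_one h3 hM0 (finrank_line (Ne.symm hy))
        intro h6
        apply hP
        rw [h6]
        exact left_mem_line _ _
      rw [h4, card_pts, h5, geo_one, one_mul]
  rw [Finset.sum_congr rfl (fun y _ => h2 y), Finset.sum_add_distrib]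
  congr 1
  rw [Finset.sum_ite_eq' Finset.univ P (fun _ => 4 * K P)]
  simp

theorem exists_off (h3 : finrank F E = 3) (P : ℙ F E) : ∃ M0 : Submodule F E, finrank F M0 = 2 ∧ P.rep ∉ M0 := by
  obtain ⟨C, hC⟩ := Submodule.exists_isCompl (Submodule.span F {P.rep})
  refine ⟨C, ?_, ?_⟩
  · have h1 := Submodule.finrank_add_eq_of_isCompl hC
    rw [finrank_span_singleton P.rep_nonzero] at h1
    omega
  · intro h
    have h1 : P.rep ∈ Submodule.span F {P.rep} ⊓ C := ⟨Submodule.mem_span_singleton_self _, h⟩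
    rw [hC.inf_eq_bot, Submodule.mem_bot] at h1
    exact P.rep_nonzero h1

/-- a line through `P` is `line P Q` for a point `Q` of `M0` -/
theorem line_point (h3 : finrank F E = 3) {P : ℙ F E} {M0 M : Submodule F E} (hM0 : finrank F M0 = 2)
    (hP : P.rep ∉ M0) (hM : finrank F M = 2) (hPM : P.rep ∈ M) : ∃ Q ∈ pts M0, line P Q = M := by
  have h1 : finrank F (M0 ⊓ M : Submodule F E) = 1 := by
    apply inf_one h3 hM0 hM
    rintro rfl
    exact hP hPM
  obtain ⟨x, hx, hx0⟩ := (Submodule.ne_bot_iff (M0 ⊓ M)).1 (by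
    intro h
    rw [h, finrank_bot] at h1
    omega)
  refine ⟨Projectivization.mk F x hx0, mem_pts.2 ((rep_mk_mem hx0).2 hx.1), ?_⟩
  apply Submodule.eq_of_le_of_finrank_eq
  · exact line_le hPM ((rep_mk_mem hx0).2 hx.2)
  · rw [hM, finrank_line]
    intro h
    apply hP
    rw [h]
    exact (rep_mk_mem hx0).2 hx.1

theorem finrank_line' {P : ℙ F E} {M0 : Submodule F E} (hP : P.rep ∉ M0) {Q : ℙ F E} (hQ : Q ∈ pts M0) :
    finrank F (line P Q) = 2 := by
  apply finrank_line
  rintro rfl
  exact hP (mem_pts.1 hQ)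

theorem exact_lines (hF : Nat.card F = 4) (h3 : finrank F E = 3) (K : ℙ F E → ℕ) (a : ℕ) (htot : ∑ y, K y = 5 * a)
    {P : ℙ F E} (hP : K P = 0) (h : ∀ M : Submodule F E, finrank F M = 2 → P.rep ∈ M → a ≤ wt K M) :
    ∀ M : Submodule F E, finrank F M = 2 → P.rep ∈ M → wt K M = a := by
  intro M hM hPM
  obtain ⟨M0, hM0, hPM0⟩ := exists_off h3 P
  obtain ⟨Q, hQ, rfl⟩ := line_point h3 hM0 hPM0 hM hPM
  have h1 := star hF h3 K P hM0 hPM0
  rw [htot, hP, mul_zero, add_zero] at h1
  have h2 : ∑ Q ∈ pts M0, a = ∑ Q ∈ pts M0, wt K (line P Q) := by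
    rw [Finset.sum_const, card_pts, hF, hM0, geo_two, h1, smul_eq_mul]
  exact ((Finset.sum_eq_sum_iff_of_le (fun Q hQ => h _ (finrank_line' hPM0 hQ) (left_mem_line _ _))).1 h2 Q hQ).symm

theorem hDBL : StDBL := by
  intro F E _ _ _ _ _ _ K hF h3 htot hline
  have hline' : ∀ L : Submodule F E, finrank F L = 2 → 2 ≤ wt K L := hline
  -- a line of weight at least three
  obtain ⟨L, hL, hL3⟩ : ∃ L : Submodule F E, finrank F L = 2 ∧ 3 ≤ wt K L := by
    obtain ⟨P, _, hP⟩ : ∃ P ∈ (Finset.univ : Finset (ℙ F E)), K P ≠ 0 := by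
      apply Finset.exists_ne_zero_of_sum_ne_zero
      rw [htot]
      norm_num
    obtain ⟨M0, hM0, hPM0⟩ := exists_off h3 P
    have h1 := star hF h3 K P hM0 hPM0
    by_contra hcon
    push Not at hcon
    have h2 : ∑ Q ∈ pts M0, wt K (line P Q) ≤ ∑ Q ∈ pts M0, 2 := by
      apply Finset.sum_le_sum
      intro Q hQ
      have := hcon _ (finrank_line' hPM0 hQ)
      omega
    rw [h1, Finset.sum_const, card_pts, hF, hM0, geo_two, htot, smul_eq_mul] at h2
    omega
  have hLpos : ∀ y : ℙ F E, y.rep ∈ L → 1 ≤ K y := by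
    intro y hy
    by_contra h0
    have h1 := exact_lines hF h3 K 2 htot (P := y) (by omega) (fun M hM _ => hline' M hM) L hL hy
    omega
  obtain ⟨K', hK'⟩ : ∃ K' : ℙ F E → ℕ, ∀ y, K y = K' y + if y.rep ∈ L then 1 else 0 := by
    refine ⟨fun y => K y - if y.rep ∈ L then 1 else 0, fun y => ?_⟩
    by_cases hy : y.rep ∈ L
    · have := hLpos y hy
      simp only [if_pos hy]
      omega
    · simp only [if_neg hy]
      omega
  have hind : ∀ M : Submodule F E, ∑ y ∈ pts M, (if y.rep ∈ L then 1 else 0) = geo 4 (finrank F (M ⊓ L : Submodule F E)) := by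
    intro M
    rw [← Finset.sum_filter, ← Finset.card_eq_sum_ones, ← hF, ← card_pts]
    congr 1
    ext y
    rw [Finset.mem_filter, mem_pts, mem_pts, Submodule.mem_inf]
  have hwt : ∀ M : Submodule F E, wt K M = wt K' M + geo 4 (finrank F (M ⊓ L : Submodule F E)) := by
    intro M
    unfold wt
    rw [← hind M, ← Finset.sum_add_distrib]
    exact Finset.sum_congr rfl fun y _ => hK' y
  have htot' : ∑ y, K' y = 5 := by
    have h1 := hwt ⊤
    unfold wt at h1
    rw [pts_univ, htot, top_inf_eq, hL, geo_two] at h1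
    omega
  have hother : ∀ M : Submodule F E, finrank F M = 2 → M ≠ L → 1 ≤ wt K' M := by
    intro M hM hne
    have h1 := hwt M
    rw [inf_one h3 hM hL hne, geo_one] at h1
    have := hline' M hM
    omega
  have hL5 : (pts L).card = 5 := by rw [card_pts, hF, hL, geo_two]
  by_cases hA : ∃ M : Submodule F E, finrank F M = 2 ∧ M ≠ L ∧ 2 ≤ wt K' M
  · obtain ⟨M, hM, hne, hM2⟩ := hA
    have hoff : ∀ y : ℙ F E, y.rep ∈ M → y.rep ∉ L → 1 ≤ K' y := by
      intro y hyM hyL
      by_contra h0
      have h1 := exact_lines hF h3 K' 1 (by rw [htot']) (P := y) (by omega) (fun N hN hyN =>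
        hother N hN (by
          rintro rfl
          exact hyL hyN)) M hM hyM
      omega
    -- the intersection point
    have hI := inf_one h3 hM hL hne
    obtain ⟨x, hx, hx0⟩ := (Submodule.ne_bot_iff (M ⊓ L)).1 (by
      intro h
      rw [h, finrank_bot] at hI
      omega)
    obtain ⟨A, hAdef⟩ : ∃ A, A = Projectivization.mk F x hx0 := ⟨_, rfl⟩
    have hAM : A.rep ∈ M := by
      rw [hAdef]
      exact (rep_mk_mem hx0).2 hx.1
    have hAL : A.rep ∈ L := by
      rw [hAdef]
      exact (rep_mk_mem hx0).2 hx.2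
    have hM5 : (pts M).card = 5 := by rw [card_pts, hF, hM, geo_two]
    have hnotL : ∀ y ∈ (pts M).erase A, y.rep ∈ M ∧ y.rep ∉ L := by
      intro y hy
      rw [Finset.mem_erase, mem_pts] at hy
      refine ⟨hy.2, fun hyL => ?_⟩
      have h1 : (pts (M ⊓ L : Submodule F E)).card = 1 := by rw [card_pts, hI, geo_one]
      obtain ⟨z, hz⟩ := Finset.card_eq_one.1 h1
      have h2 : y ∈ pts (M ⊓ L : Submodule F E) := mem_pts.2 ⟨hy.2, hyL⟩
      have h4 : A ∈ pts (M ⊓ L : Submodule F E) := mem_pts.2 ⟨hAM, hAL⟩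
      rw [hz, Finset.mem_singleton] at h2 h4
      exact hy.1 (h2.trans h4.symm)
    have h4le : 4 ≤ ∑ y ∈ (pts M).erase A, K' y := by
      have h1 : ∑ y ∈ (pts M).erase A, 1 ≤ ∑ y ∈ (pts M).erase A, K' y := by
        apply Finset.sum_le_sum
        intro y hy
        obtain ⟨h2, h4⟩ := hnotL y hy
        exact hoff y h2 h4
      rw [← Finset.card_eq_sum_ones, Finset.card_erase_of_mem (mem_pts.2 hAM), hM5] at h1
      exact h1
    have hwM : wt K' M = K' A + ∑ y ∈ (pts M).erase A, K' y := by
      unfold wt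
      rw [Finset.add_sum_erase _ _ (mem_pts.2 hAM)]
    have hKA : 1 ≤ K' A := by
      by_contra h0
      have hA0 : K' A = 0 := by omega
      obtain ⟨M0, hM0, hAM0⟩ := exists_off h3 A
      have h1 := star hF h3 K' A hM0 hAM0
      rw [htot', hA0, mul_zero, add_zero] at h1
      obtain ⟨QM, hQM, hQM2⟩ := line_point h3 hM0 hAM0 hM hAM
      obtain ⟨QL, hQL, hQL2⟩ := line_point h3 hM0 hAM0 hL hAL
      have hQne : QL ≠ QM := by
        rintro rfl
        exact hne (hQM2.symm.trans hQL2)
      rw [← Finset.add_sum_erase _ _ hQM, hQM2] at h1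
      have hQL' : QL ∈ (pts M0).erase QM := Finset.mem_erase.2 ⟨hQne, hQL⟩
      rw [← Finset.add_sum_erase _ _ hQL'] at h1
      have h2 : ∑ Q ∈ ((pts M0).erase QM).erase QL, 1
          ≤ ∑ Q ∈ ((pts M0).erase QM).erase QL, wt K' (line A Q) := by
        apply Finset.sum_le_sum
        intro Q hQ
        rw [Finset.mem_erase, Finset.mem_erase] at hQ
        apply hother _ (finrank_line' hAM0 hQ.2.2)
        intro h5
        apply hQ.1
        have h6 : Q.rep ∈ M0 ⊓ L := ⟨mem_pts.1 hQ.2.2, h5 ▸ right_mem_line _ _⟩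
        have h7 : QL.rep ∈ M0 ⊓ L := ⟨mem_pts.1 hQL, hQL2 ▸ right_mem_line _ _⟩
        have h8 : finrank F (M0 ⊓ L : Submodule F E) = 1 := by
          apply inf_one h3 hM0 hL
          rintro rfl
          exact hAM0 hAL
        have h9 : (pts (M0 ⊓ L : Submodule F E)).card = 1 := by rw [card_pts, h8, geo_one]
        obtain ⟨z, hz⟩ := Finset.card_eq_one.1 h9
        have h10 : Q ∈ pts (M0 ⊓ L : Submodule F E) := mem_pts.2 h6
        have h11 : QL ∈ pts (M0 ⊓ L : Submodule F E) := mem_pts.2 h7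
        rw [hz, Finset.mem_singleton] at h10 h11
        exact h10.trans h11.symm
      rw [← Finset.card_eq_sum_ones, Finset.card_erase_of_mem hQL', Finset.card_erase_of_mem hQM, card_pts, hF,
        hM0, geo_two] at h2
      rw [hwM] at h1
      omega
    -- K' is the indicator of M
    have hK'M : ∀ y, K' y = if y.rep ∈ M then 1 else 0 := by
      have hle : ∀ y ∈ (Finset.univ : Finset (ℙ F E)), (if y.rep ∈ M then 1 else 0) ≤ K' y := by
        intro y _
        split_ifs with hy
        · by_cases hyA : y = A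
          · rw [hyA]
            exact hKA
          · obtain ⟨h1, h2⟩ := hnotL y (Finset.mem_erase.2 ⟨hyA, mem_pts.2 hy⟩)
            exact hoff y h1 h2
        · exact Nat.zero_le _
      have hsum : ∑ y : ℙ F E, (if y.rep ∈ M then 1 else 0) = ∑ y, K' y := by
        rw [htot', ← Finset.sum_filter, ← Finset.card_eq_sum_ones]
        exact hM5
      intro y
      exact ((Finset.sum_eq_sum_iff_of_le hle).1 hsum y (Finset.mem_univ _)).symm
    refine ⟨L, M, hL, hM, fun y => ?_⟩
    rw [hK' y, hK'M y, add_comm]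
  · push Not at hA
    have hone : ∀ M : Submodule F E, finrank F M = 2 → M ≠ L → wt K' M = 1 := by
      intro M hM hne
      have := hA M hM hne
      have := hother M hM hne
      omega
    have hzero : ∀ y : ℙ F E, y.rep ∉ L → K' y = 0 := by
      intro y hy
      obtain ⟨M0, hM0, hyM0⟩ := exists_off h3 y
      have h1 := star hF h3 K' y hM0 hyM0
      have h2 : ∑ Q ∈ pts M0, wt K' (line y Q) = ∑ Q ∈ pts M0, 1 := by
        apply Finset.sum_congr rfl
        intro Q hQ
        apply hone _ (finrank_line' hyM0 hQ)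
        intro h
        apply hy
        rw [← h]
        exact left_mem_line _ _
      rw [h2, ← Finset.card_eq_sum_ones, card_pts, hF, hM0, geo_two, htot'] at h1
      omega
    have hwL : wt K' L = 5 := by
      rw [← htot']
      unfold wt
      apply Finset.sum_subset (Finset.subset_univ _)
      intro y _ hy
      exact hzero y (fun h => hy (mem_pts.2 h))
    have hLone : ∀ y : ℙ F E, y.rep ∈ L → K' y = 1 := by
      intro y hy
      obtain ⟨M0, hM0, hyM0⟩ := exists_off h3 y
      have h1 := star hF h3 K' y hM0 hyM0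
      obtain ⟨QL, hQL, hQL2⟩ := line_point h3 hM0 hyM0 hL hy
      rw [← Finset.add_sum_erase _ _ hQL, hQL2, hwL] at h1
      have h2 : ∑ Q ∈ (pts M0).erase QL, wt K' (line y Q) = ∑ Q ∈ (pts M0).erase QL, 1 := by
        apply Finset.sum_congr rfl
        intro Q hQ
        rw [Finset.mem_erase] at hQ
        apply hone _ (finrank_line' hyM0 hQ.2)
        intro h5
        apply hQ.1
        have h6 : Q.rep ∈ M0 ⊓ L := ⟨mem_pts.1 hQ.2, h5 ▸ right_mem_line _ _⟩
        have h7 : QL.rep ∈ M0 ⊓ L := ⟨mem_pts.1 hQL, hQL2 ▸ right_mem_line _ _⟩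
        have h8 : finrank F (M0 ⊓ L : Submodule F E) = 1 := by
          apply inf_one h3 hM0 hL
          rintro rfl
          exact hyM0 hy
        have h9 : (pts (M0 ⊓ L : Submodule F E)).card = 1 := by rw [card_pts, h8, geo_one]
        obtain ⟨z, hz⟩ := Finset.card_eq_one.1 h9
        have h10 : Q ∈ pts (M0 ⊓ L : Submodule F E) := mem_pts.2 h6
        have h11 : QL ∈ pts (M0 ⊓ L : Submodule F E) := mem_pts.2 h7
        rw [hz, Finset.mem_singleton] at h10 h11
        exact h10.trans h11.symm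
      rw [h2, ← Finset.card_eq_sum_ones, Finset.card_erase_of_mem hQL, card_pts, hF, hM0, geo_two, htot'] at h1
      omega
    refine ⟨L, L, hL, hL, fun y => ?_⟩
    rw [hK' y]
    by_cases hy : y.rep ∈ L
    · rw [hLone y hy, if_pos hy]
    · rw [hzero y hy, if_neg hy]

end

end Pool.Agent.Helper45.U4
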