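import Pool.Agent.Helper45.U4.St3

set_option autoImplicit false

open Module Classical
open scoped LinearAlgebra.Projectivization

namespace Pool.Agent.Helper45.U4

open Pool.Agent.Helper53.PB

theorem FFO_span {F V : Type} [Field F] [AddCommGroup V] [Module F V] (P : Polar F V) (S : Set V)
    (h1 : ∀ x ∈ S, P.sing x) (h2 : ∀ x ∈ S, ∀ y ∈ S, P.f x y = 0) : P.TS (Submodule.span F S) := by
  have hp : ∀ x ∈ Submodule.span F S, ∀ y ∈ Submodule.span F S, P.f x y = 0 := by
    intro x hx y hy
    apply P.symm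
    apply Polar.perp_span _ hy
    intro s hs
    apply P.symm
    apply Polar.perp_span _ hx
    intro t ht
    exact h2 t ht s hs
  refine ⟨fun x hx => ?_, hp⟩
  induction hx using Submodule.span_induction with
  | mem x hx => exact h1 x hx
  | zero => exact P.sing_zero
  | add x y hx hy ihx ihy => exact P.sing_add x y ihx ihy (hp x hx y hy)
  | smul a x _ hx => exact P.sing_smul a x hx

theorem FFO_tt {F V : Type} [Field F] [AddCommGroup V] [Module F V] [Finite F] [Finite V]
    [FiniteDimensional F V] (W : Submodule F V) (T : Finset (ℙ F V)) (H : Submodule F W) :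
    tt (Finset.univ.filter (fun y : ℙ F W => Projectivization.map W.subtype W.injective_subtype y ∈ T)) H
      = tt T (H.map W.subtype) := by
  unfold tt
  have h1 : T.filter (fun y => y.rep ∈ H.map W.subtype) =
      ((Finset.univ.filter (fun y : ℙ F W => Projectivization.map W.subtype W.injective_subtype y ∈ T)).filter
        (fun y => y.rep ∈ H)).image (Projectivization.map W.subtype W.injective_subtype) := by
    ext z
    rw [Finset.mem_image, Finset.mem_filter]
    constructor
    · rintro ⟨hz, u, hu, huz⟩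
      have hu0 : u ≠ 0 := by
        rintro rfl
        rw [map_zero] at huz
        exact z.rep_nonzero huz.symm
      have hm : Projectivization.map W.subtype W.injective_subtype (Projectivization.mk F u hu0) = z := by
        rw [Projectivization.map_mk]
        conv_rhs => rw [← z.mk_rep]
        rw [Projectivization.mk_eq_mk_iff']
        exact ⟨1, by rw [one_smul, huz]⟩
      refine ⟨Projectivization.mk F u hu0, ?_, hm⟩
      rw [Finset.mem_filter, Finset.mem_filter, hm]
      exact ⟨⟨Finset.mem_univ _, hz⟩, (rep_mk_mem hu0).2 hu⟩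
    · rintro ⟨y, hy, rfl⟩
      rw [Finset.mem_filter, Finset.mem_filter] at hy
      refine ⟨hy.1.2, ?_⟩
      have h2 : Projectivization.map W.subtype W.injective_subtype y
          = Projectivization.mk F (W.subtype y.rep) (fun h => y.rep_nonzero (W.injective_subtype (by rw [h, map_zero]))) := by
        conv_lhs => rw [← y.mk_rep]
        rw [Projectivization.map_mk]
      rw [h2, rep_mk_mem]
      exact ⟨y.rep, hy.2, rfl⟩
  rw [h1, Finset.card_image_of_injective _ (Projectivization.map_injective _ _)]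

theorem hFFO (h1 : StTHR) (h2 : StEXA) (h3 : StEXB) (h4 : StCOL) (h5 : StFIN) : StFFO := by
  intro F V _ _ _ _ _ _ φ T hM
  obtain ⟨X, hX⟩ := h2 φ T hM
  obtain ⟨b1, b2, b3⟩ := h3 φ T X hM hX
  have hcol := h4 φ T X hM hX
  have hφ := hM.hs
  -- the generator
  obtain ⟨S, hS⟩ : ∃ S : Set V, S = {v | ∃ x : ℙ F V, 0 < X x ∧ x.rep = v} := ⟨_, rfl⟩
  have hpos_sing : ∀ x : ℙ F V, 0 < X x → φ.toPolar.sing x.rep := by
    intro x hx
    by_contra hcon
    have := hX.sup x hcon
    omega
  have hTS : φ.toPolar.TS (Submodule.span F S) := by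
    apply FFO_span
    · intro v hv
      rw [hS] at hv
      obtain ⟨x, hx, rfl⟩ := hv
      exact hpos_sing x hx
    · intro v hv u hu
      rw [hS] at hv hu
      obtain ⟨x, hx, rfl⟩ := hv
      obtain ⟨y, hy, rfl⟩ := hu
      exact hcol x y hx hy
  obtain ⟨W, hW, hSW⟩ := Polar.exists_gen_ge hTS
  have hXW : ∀ x : ℙ F V, X x ≠ 0 → x.rep ∈ W := by
    intro x hx
    apply hSW
    apply Submodule.subset_span
    rw [hS]
    have := hX.nonneg x
    exact ⟨x, by omega, rfl⟩
  have htfW : tf X W = 10 := by
    rw [← hX.tot]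
    unfold tf
    apply Finset.sum_subset (Finset.subset_univ _)
    intro x _ hx
    by_contra hne
    exact hx (mem_pts.2 (hXW x hne))
  have httW : tt T W = 11 := by
    have := hX.tt W hW
    rw [htfW] at this
    omega
  have hWr := hφ.gen W hW
  apply h5 (Finset.univ.filter (fun y : ℙ F W => Projectivization.map W.subtype W.injective_subtype y ∈ T))
    hφ.card hWr
  · have h6 := FFO_tt W T ⊤
    rw [Submodule.map_subtype_top, httW] at h6
    unfold tt at h6
    rw [Finset.filter_true_of_mem (fun _ _ => Submodule.mem_top)] at h6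
    exact h6
  intro H' hH'
  rw [FFO_tt]
  obtain ⟨H, hHd⟩ : ∃ H, H = H'.map W.subtype := ⟨_, rfl⟩
  have hH3 : finrank F H = 3 := by
    rw [hHd, ← (Submodule.equivMapOfInjective W.subtype W.injective_subtype _).finrank_eq]
    exact hH'
  have hHW : H ≤ W := by
    rw [hHd]
    exact Submodule.map_subtype_le _ _
  rw [← hHd]
  by_cases h0 : tt T H = 0
  · exact Or.inl h0
  right
  obtain ⟨z, hz⟩ : (T.filter (fun y => y.rep ∈ H)).Nonempty := by
    rw [← Finset.card_pos]
    exact Nat.pos_of_ne_zero h0
  rw [Finset.mem_filter] at hz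
  obtain ⟨hzT, hzH⟩ := hz
  have hHts : φ.toPolar.TS H := hW.1.mono hHW
  obtain ⟨⟨U0, U1, U2, hT⟩, _⟩ := h1 φ 4 hφ H hHts (by omega)
  obtain ⟨U, hU, hUW⟩ : ∃ U, φ.toPolar.Gen U ∧ U ⊓ W = H := by
    rcases hT.all W hW hHW with h | h | h
    · exact ⟨U1, hT.g1, by rw [h, inf_comm]; exact hT.i01⟩
    · exact ⟨U0, hT.g0, by rw [h]; exact hT.i01⟩
    · exact ⟨U0, hT.g0, by rw [h]; exact hT.i02⟩
  have hHU : H ≤ U := hUW ▸ inf_le_left
  obtain ⟨v, hvU, hvW⟩ : ∃ v ∈ U, v ∉ W := by
    by_contra hcon
    push Not at hcon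
    have h6 : U ⊓ W = U := inf_eq_left.2 hcon
    rw [hUW] at h6
    have := hφ.gen U hU
    rw [← h6] at this
    omega
  have hv0 : v ≠ 0 := fun h => hvW (h ▸ zero_mem _)
  obtain ⟨y, hy⟩ : ∃ y, y = Projectivization.mk F v hv0 := ⟨_, rfl⟩
  have hyU : y.rep ∈ U := by
    rw [hy]
    exact (rep_mk_mem hv0).2 hvU
  have hyW : y.rep ∉ W := by
    rw [hy]
    exact fun h => hvW ((rep_mk_mem hv0).1 h)
  have hys : φ.toPolar.sing y.rep := hU.1.1 _ hyU
  have hker : W ⊓ LinearMap.ker (φ.toPolar.f y.rep) = H := by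
    symm
    apply Submodule.eq_of_le_of_finrank_eq
    · exact le_inf hHW fun x hx => hU.1.2 _ hyU _ (hHU hx)
    · have := Polar.finrank_inf_ker W (φ.toPolar.f y.rep) (hW.not_le hys hyW)
      omega
  have hnfy : nf φ.toPolar X y = tf X H := by
    unfold nf tf pts
    rw [Finset.sum_filter, Finset.sum_filter]
    apply Finset.sum_congr rfl
    intro x _
    by_cases hx0 : X x = 0
    · rw [hx0, ite_self, ite_self]
    · have hxW := hXW x hx0
      have hiff : φ.toPolar.f x.rep y.rep = 0 ↔ x.rep ∈ H := by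
        constructor
        · intro h6
          rw [← hker]
          exact ⟨hxW, φ.toPolar.symm _ _ h6⟩
        · intro h6
          exact hU.1.2 _ (hHU h6) _ hyU
      simp only [hiff]
  have hge : 2 ≤ tf X H := by
    rw [← hnfy]
    by_cases hyT : y ∈ T
    · exact b2 y hyT
    · have hXy : X y = 0 := by
        by_contra hne
        exact hyW (hXW y hne)
      rcases b3 y hys hyT hXy with h6 | h6 <;> omega
  have htfU : tf X U = tf X H := by
    unfold tf pts
    rw [Finset.sum_filter, Finset.sum_filter]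
    apply Finset.sum_congr rfl
    intro x _
    by_cases hx0 : X x = 0
    · rw [hx0, ite_self, ite_self]
    · have hxW := hXW x hx0
      have hiff : x.rep ∈ U ↔ x.rep ∈ H := by
        constructor
        · intro h6
          rw [← hUW]
          exact ⟨h6, hxW⟩
        · intro h6
          exact hHU h6
      simp only [hiff]
  have httU : 3 ≤ tt T U := by
    have := hX.tt U hU
    omega
  -- the points of T in U are in H
  have hnfz : nf φ.toPolar X z = 10 := by
    rw [← hX.tot]
    unfold nf
    apply Finset.sum_subset (Finset.subset_univ _)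
    intro x _ hx
    by_contra hne
    apply hx
    rw [Finset.mem_filter]
    exact ⟨Finset.mem_univ _, hW.1.2 _ (hXW x hne) _ (hHW hzH)⟩
  have hnn : φ.toPolar.nn T z = 11 := by
    have h6 := b1 z (hHts.1 _ hzH)
    unfold s4 at h6
    rw [nf_chi, chi_mem hzT, hnfz, hX.zero z hzT] at h6
    omega
  have hsub : T.filter (fun y => y.rep ∈ W) = T.filter (fun y => φ.toPolar.f y.rep z.rep = 0) := by
    apply Finset.eq_of_subset_of_card_le
    · intro t ht
      rw [Finset.mem_filter] at ht ⊢
      exact ⟨ht.1, hW.1.2 _ ht.2 _ (hHW hzH)⟩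
    · have h6 : (T.filter (fun y => φ.toPolar.f y.rep z.rep = 0)).card = 11 := hnn
      have h7 : (T.filter (fun y => y.rep ∈ W)).card = 11 := httW
      omega
  refine httU.trans ?_
  unfold tt
  apply Finset.card_le_card
  intro t ht
  rw [Finset.mem_filter] at ht ⊢
  refine ⟨ht.1, ?_⟩
  have h6 : t ∈ T.filter (fun y => φ.toPolar.f y.rep z.rep = 0) := by
    rw [Finset.mem_filter]
    exact ⟨ht.1, hU.1.2 _ ht.2 _ (hHU hzH)⟩
  rw [← hsub, Finset.mem_filter] at h6
  rw [← hUW]
  exact ⟨ht.2, h6.2⟩

end Pool.Agent.Helper45.U4
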