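import Pool.Agent.Helper45.U4.St1

set_option autoImplicit false

open Module Classical
open scoped LinearAlgebra.Projectivization

namespace Pool.Agent.Helper45.U4

open Pool.Agent.Helper53.PB

theorem hHRS : StHRS := by
  intro F V _ _ _ _ φ r hφ v w hv hw
  have hres := resForm_isRes φ hv hw
  have hgen : ∀ U, (resForm φ hv hw).toPolar.Gen U → finrank F U = r := hres.gen_finrank hφ.gen
  refine ⟨⟨?_, hφ.card, ?_, hgen⟩, ?_⟩
  · unfold resForm
    rw [Form.restrict_kind]
    exact hφ.kind
  · have h1 := finrank_perp2 φ hv hw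
    have h2 := hφ.dim
    omega
  · intro U hU hvU
    have hUr := hφ.gen U hU
    have hnot : ¬ U ≤ LinearMap.ker (φ.toPolar.f w) := fun hle => hw (hle hvU)
    have h2 := Polar.finrank_inf_ker U (φ.toPolar.f w) hnot
    obtain ⟨W0, hW0⟩ : ∃ W0, W0 = U.comap (perp2 φ v w).subtype := ⟨_, rfl⟩
    have h3 : W0.map (perp2 φ v w).subtype = U ⊓ LinearMap.ker (φ.toPolar.f w) := by
      rw [hW0, Submodule.map_comap_eq, hres.range]
      apply le_antisymm
      · rintro x ⟨⟨_, h4⟩, h5⟩
        exact ⟨h5, h4⟩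
      · rintro x ⟨h4, h5⟩
        exact ⟨⟨hU.1.2 v hvU x h4, h5⟩, h4⟩
    have hW0r : finrank F W0 = r := by
      rw [(Submodule.equivMapOfInjective (perp2 φ v w).subtype hres.inj W0).finrank_eq, h3]
      omega
    have hW0ts : (resForm φ hv hw).toPolar.TS W0 := by
      rw [hW0]
      constructor
      · intro x hx
        exact (hres.sing x).2 (hU.1.1 _ hx)
      · intro x hx y hy
        exact (hres.perp x y).2 (hU.1.2 _ hx _ hy)
    refine ⟨W0, Polar.gen_of_finrank hgen hW0ts hW0r, ?_⟩
    apply Submodule.eq_of_le_of_finrank_eq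
    · intro x hx
      obtain ⟨u, hu, c, rfl⟩ := IsRes.mem_lift.1 hx
      rw [hW0] at hu
      exact U.add_mem hu (U.smul_mem c hvU)
    · rw [hres.finrank_lift, hW0r, hUr]

end Pool.Agent.Helper45.U4
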