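import Pool.Agent.Helper45.U4.St1

set_option autoImplicit false

open Module Classical
open scoped LinearAlgebra.Projectivization

namespace Pool.Agent.Helper45.U4

open Pool.Agent.Helper53.PB

theorem LBD_aux {F V : Type} [Field F] [AddCommGroup V] [Module F V] [Finite F] [Finite V]
    [FiniteDimensional F V] (h1 : StHNB) (h4 : StCON) (h5 : StNBX) (φ : Form F V) (f : ℙ F V → ℤ) (r : ℕ)
    (hφ : Hs φ r) (hf : ∀ U, φ.toPolar.Gen U → 1 ≤ tf f U) (B a c : ℤ) (hc : c < a) (ha : 0 ≤ a)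
    (hform : ∀ U, φ.toPolar.Gen U → ∀ N : Nb φ.toPolar U Bool,
      (∑ p, (tf f (N.nb p) - 1) = (∑ y, f y - B) + c * (tf f U - 1)) ∧
        ((Fintype.card (Bool × ℙ F (Dual F U)) : ℕ) : ℤ) = a) :
    B ≤ ∑ y, f y ∧ (∑ y, f y = B → ∀ U, φ.toPolar.Gen U → tf f U = 1) := by
  have hfinS : Finite (Submodule F V) := by
    apply Finite.of_injective (fun U : Submodule F V => (U : Set V))
    exact SetLike.coe_injective
  obtain ⟨U0, hU0, _⟩ := Polar.exists_gen_ge (P := φ.toPolar) Polar.ts_bot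
  obtain ⟨U, hU, hmin⟩ := Set.exists_min_image {U : Submodule F V | φ.toPolar.Gen U} (fun U => tf f U)
    (Set.toFinite _) ⟨U0, hU0⟩
  obtain ⟨N⟩ := h1 φ r hφ U hU
  obtain ⟨e1, e2⟩ := hform U hU N
  have hle : a * (tf f U - 1) ≤ ∑ p, (tf f (N.nb p) - 1) := by
    rw [← e2, ← Finset.card_univ, ← nsmul_eq_mul]
    apply Finset.card_nsmul_le_sum
    intro p _
    have := hmin (N.nb p) (N.gen p)
    linarith
  have hm := hf U hU
  have hprod : c * (tf f U - 1) ≤ a * (tf f U - 1) := mul_le_mul_of_nonneg_right hc.le (by linarith)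
  refine ⟨by rw [e1] at hle; linarith, fun htot => ?_⟩
  have hU1 : tf f U = 1 := by
    rw [e1, htot, sub_self, zero_add] at hle
    by_contra hne
    have h2 : 1 ≤ tf f U - 1 := by
      have : tf f U ≠ 1 := hne
      omega
    nlinarith
  intro W hW
  refine h4 φ r hφ ⊥ (fun U => tf f U = 1) ?_ U W hU hW bot_le bot_le hU1
  intro U1 U2 hU1 hU2 _ _ hdim hone
  obtain ⟨N1⟩ := h1 φ r hφ U1 hU1
  obtain ⟨p, hp⟩ := (h5 φ r hφ U1 hU1 N1).1 U2 hU2 hdim
  obtain ⟨e3, _⟩ := hform U1 hU1 N1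
  rw [htot, sub_self, zero_add, hone, sub_self, mul_zero] at e3
  have h6 := (Finset.sum_eq_zero_iff_of_nonneg (fun p _ => by
    have := hf (N1.nb p) (N1.gen p)
    linarith)).1 e3 p (Finset.mem_univ _)
  show tf f U2 = 1
  rw [← hp]
  linarith

theorem hLBD (h1 : StHNB) (h2 : StRTH) (h3 : StRFO) (h4 : StCON) (h5 : StNBX) : StLBD := by
  intro F V _ _ _ _ _ _ φ f hsup hf
  refine ⟨fun hφ => ?_, fun hφ => ?_⟩
  · apply LBD_aux h1 h4 h5 φ f 3 hφ hf 33 42 9 (by norm_num) (by norm_num)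
    intro U hU N
    obtain ⟨e1, e2⟩ := ((h2 φ f hφ hsup).1 U hU N).1
    exact ⟨e1, by rw [e2]; norm_num⟩
  · apply LBD_aux h1 h4 h5 φ f 4 hφ hf 129 170 41 (by norm_num) (by norm_num)
    intro U hU N
    obtain ⟨e1, e2⟩ := ((h3 φ f hφ hsup).1 U hU N).1
    exact ⟨e1, by rw [e2]; norm_num⟩

end Pool.Agent.Helper45.U4
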