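import Pool.Agent.Helper45.U4.St3
import Pool.Agent.Helper53.PB.Symp

set_option autoImplicit false

open Module Classical
open scoped LinearAlgebra.Projectivization

namespace Pool.Agent.Helper45.U4

open Pool.Agent.Helper53.PB

theorem hMNB (h1 : StHRS) (h2 : StLOW) : StMNB := by
  intro F V _ _ _ _ _ _ φ
  have hproj : Hs φ 4 → ∀ T, φ.toPolar.Block T → ∀ R : ℙ F V, φ.Sing R.rep → R ∉ T → 35 ≤ φ.toPolar.nn T R := by
    intro hφ T hT R hR hRT
    obtain ⟨w, hw⟩ := exists_pair φ hR R.rep_nonzero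
    obtain ⟨T', hT', hle⟩ := (resForm_isRes φ hR hw).project hT rfl hRT
    exact (h2 (resForm φ hR hw) (h1 φ 3 hφ R.rep w hR hw).1 T' hT').trans hle
  refine ⟨fun T hT => ⟨fun R hR hRT => hproj hT.hs T hT.block R hR hRT, fun z hz => ?_⟩, fun hφ T hT hle => ?_⟩
  · obtain ⟨U, hU, hzU, huniq⟩ := Polar.exists_tangent hT.block hT.min hz
    exact ⟨U, hU, hzU, tt_one hz hzU huniq⟩
  · obtain ⟨T', hT', hmin⟩ := exists_min (P := φ.toPolar) ⟨T, hT⟩
    have h3 := hmin T hT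
    have h4 := Polar.core (P := φ.toPolar) (r := 3) (m := 35) (by norm_num) hφ.gen hT' hmin
      (fun R hR hRT => hproj hφ T' hT' R hR hRT)
    rw [hφ.card] at h4
    have h5 : (-((35 : ℕ) : ℤ)) % ((4 : ℕ) : ℤ) = 1 := by norm_num
    rw [h5] at h4
    push_cast at h4
    exact ⟨T', hφ, hT', by omega, hmin⟩

end Pool.Agent.Helper45.U4
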