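import Pool.Agent.Helper45.U4.St3
import Pool.Agent.Helper53.PB.Symp

set_option autoImplicit false

open Module Classical
open scoped LinearAlgebra.Projectivization

namespace Pool.Agent.Helper45.U4

open Pool.Agent.Helper53.PB

theorem hSTP (h1 : StHRS) (_h2 : StHF) : StSTP := by
  intro F _ r m
  have hcone : (∀ {V : Type} [AddCommGroup V] [Module F V] [FiniteDimensional F V] (φ : Form F V), Hs φ r →
      ∃ T : Finset (ℙ F V), φ.toPolar.Block T ∧ T.card ≤ m) →
    ∀ {V : Type} [AddCommGroup V] [Module F V] [FiniteDimensional F V] (φ : Form F V), Hs φ (r + 1) →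
      ∃ T : Finset (ℙ F V), φ.toPolar.Block T ∧ T.card ≤ 4 * m := by
    intro h V _ _ _ φ hφ
    have := hφ.finF
    obtain ⟨U, hU, _⟩ := Polar.exists_gen_ge (P := φ.toPolar) Polar.ts_bot
    obtain ⟨v, hv, hv0⟩ := (Submodule.ne_bot_iff U).1 (by
      rintro rfl
      have := hφ.gen _ hU
      rw [finrank_bot] at this
      omega)
    have hs : φ.Sing v := hU.1.1 v hv
    obtain ⟨w, hw⟩ := exists_pair φ hs hv0
    obtain ⟨T, hT, hTm⟩ := h (resForm φ hs hw) (h1 φ r hφ v w hs hw).1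
    obtain ⟨T', hT', hle⟩ := (resForm_isRes φ hs hw).cone hφ.gen hT
    rw [hφ.card] at hle
    exact ⟨T', hT', hle.trans (Nat.mul_le_mul_left _ hTm)⟩
  refine ⟨hcone, fun hr hdvd h => ?_⟩
  intro V _ _ _ φ hφ
  have := hφ.finF
  have : Finite V := Module.finite_of_finite F
  have hup := hcone (fun φ hφ => (h _ φ hφ).1) φ hφ
  refine ⟨hup, ?_⟩
  obtain ⟨T, hT, hmin⟩ := exists_min (P := φ.toPolar) ⟨_, hup.choose_spec.1⟩
  intro T' hT'
  refine le_trans ?_ (hmin T' hT')
  have h3 := Polar.core (P := φ.toPolar) (m := m) hr hφ.gen hT hmin (fun R hR hRT => by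
    obtain ⟨w, hw⟩ := exists_pair φ hR R.rep_nonzero
    obtain ⟨T', hT', hle⟩ := (resForm_isRes φ hR hw).project hT rfl hRT
    exact ((h _ (resForm φ hR hw) (h1 φ r hφ R.rep w hR hw).1).2 T' hT').trans hle)
  rw [hφ.card] at h3
  have h4 : (-(m : ℤ)) % ((4 : ℕ) : ℤ) = 0 := by
    apply Int.emod_eq_zero_of_dvd
    rw [dvd_neg]
    exact_mod_cast hdvd
  rw [h4, add_zero] at h3
  exact_mod_cast h3

end Pool.Agent.Helper45.U4
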