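import Pool.Agent.Helper45.U4.St3

/-!
# Project U4: the main theorem from the statements
-/

set_option autoImplicit false

open Module Classical
open scoped LinearAlgebra.Projectivization

namespace Pool.Agent.Helper45.U4

open Pool.Agent.Helper53.PB

theorem hm_three (hLOW : StLOW) (hUPP : StUPP) (F : Type) [Field F] : HM F 3 35 := by
  intro V _ _ _ φ hφ
  exact ⟨hUPP φ hφ, hLOW φ hφ⟩

theorem hm_four (hUPP : StUPP) (hMNB : StMNB) (hFFO : StFFO) (hSTP : StSTP) (F : Type) [Field F] :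
    HM F 4 140 := by
  intro V _ _ _ φ hφ
  have := hφ.finF
  have : Finite V := Module.finite_of_finite F
  refine ⟨(hSTP F 3 35).1 (fun φ h => hUPP φ h) φ hφ, fun T hT => ?_⟩
  by_contra hlt
  push Not at hlt
  obtain ⟨T', hT'⟩ := (hMNB φ).2 hφ T hT (by omega)
  exact hFFO φ T' hT'

theorem hm_all (hLOW : StLOW) (hUPP : StUPP) (hMNB : StMNB) (hFFO : StFFO) (hSTP : StSTP) (F : Type) [Field F]
    (n : ℕ) : HM F (n + 3) (35 * 4 ^ n) := by
  have h : ∀ k : ℕ, HM F (k + 4) (35 * 4 ^ (k + 1)) := by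
    intro k
    induction k with
    | zero => exact hm_four hUPP hMNB hFFO hSTP F
    | succ k ih =>
      have h1 := (hSTP F (k + 4) (35 * 4 ^ (k + 1))).2 (by omega) ((dvd_pow_self 4 (by omega)).mul_left _) ih
      have h2 : 35 * 4 ^ (k + 1 + 1) = 4 * (35 * 4 ^ (k + 1)) := by ring
      rw [h2]
      exact h1
  rcases n with _ | n
  · exact hm_three hLOW hUPP F
  · exact h n

theorem u4_main (hHSX : StHSX) (hLOW : StLOW) (hUPP : StUPP) (hMNB : StMNB) (hFFO : StFFO) (hSTP : StSTP)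
    (F : Type) [Field F] (hF : Nat.card F = 4) (V : Type) [AddCommGroup V] [Module F V] [FiniteDimensional F V]
    (σ : F →+* F) (invol : ∀ a, σ (σ a) = a) (ne : ∃ a, σ a ≠ a) (B : V →ₗ[F] V →ₛₗ[σ] F)
    (herm : ∀ x y, B y x = σ (B x y)) (nondeg : ∀ x, (∀ y, B x y = 0) → x = 0) (n : ℕ) (hn : 2 ≤ n)
    (hV : finrank F V = 2 * n + 2) :
    IsLeast {k | ∃ T : Finset (ℙ F V), Blocking (Form.hermitian σ invol ne B herm nondeg) T ∧ T.card = k}
      (35 * 4 ^ (n - 2)) := by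
  obtain ⟨m, rfl⟩ : ∃ m, n = m + 2 := ⟨n - 2, by omega⟩
  have hs : Hs (Form.hermitian σ invol ne B herm nondeg) (m + 3) := hHSX _ _ rfl hF (by omega)
  obtain ⟨⟨T, hT, hle⟩, hge⟩ := hm_all hLOW hUPP hMNB hFFO hSTP F m V _ hs
  have he : m + 2 - 2 = m := by omega
  rw [he]
  constructor
  · exact ⟨T, (blocking_iff _ _).2 hT, le_antisymm hle (hge T hT)⟩
  · rintro k ⟨T', hT', rfl⟩
    exact hge T' ((blocking_iff _ _).1 hT')

end Pool.Agent.Helper45.U4
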