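import Pool.Agent.Helper10.U4.M_HSX
import Pool.Agent.Helper11.U4.M_LHP
import Pool.Agent.Helper12.U4.M_GPG
import Pool.Agent.Helper16.U4.M_NBX
import Pool.Agent.Helper16.U4.M_PSH
import Pool.Agent.Helper29.U4.M_EXC
import Pool.Agent.Helper32.U4.M_HVY
import Pool.Agent.Helper33.U4.M_UPP
import Pool.Agent.Helper38.U4.M_THR
import Pool.Agent.Helper40.U4.M_EXA
import Pool.Agent.Helper40.U4.M_OVC
import Pool.Agent.Helper41.U4.M_ORT
import Pool.Agent.Helper42.U4.M_FRM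
import Pool.Agent.Helper44.U4.M_EXF
import Pool.Agent.Helper45.U4.M_AVL
import Pool.Agent.Helper45.U4.M_CON
import Pool.Agent.Helper45.U4.M_DBL
import Pool.Agent.Helper45.U4.M_FFO
import Pool.Agent.Helper45.U4.M_HRS
import Pool.Agent.Helper45.U4.M_LBD
import Pool.Agent.Helper45.U4.M_MNB
import Pool.Agent.Helper45.U4.M_STP
import Pool.Agent.Helper45.U4.Main
import Pool.Agent.Helper47.U4.M_EXB
import Pool.Agent.Helper6.U4.M_RFO
import Pool.Agent.Helper64.U4.M_HLN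
import Pool.Agent.Helper66.U4.M_TAN
import Pool.Agent.Helper72.U4.M_HNB
import Pool.Agent.Helper73.U4.M_RTH
import Pool.Agent.Helper75.U4.M_LOW
import Pool.Agent.Helper8.U4.M_COL
import Pool.Agent.Helper80.U4.M_FIN
import Pool.Agent.Helper82.U4.M_GEO
import Pool.Agent.Helper84.U4.M_VEC
import Pool.Agent.Helper89.U4.M_HF
import Pool.Agent.Helper9.U4.M_AVO
import Pool.Agent.Helper94.U4.M_DCT
import Pool.Agent.Helper97.U4.M_SUM
import Pool.Agent.Helper99.U4.M_CFG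
import Pool.Agent.Helper99.U4.M_ONB

/-!
# Project U4: assembly
-/

set_option autoImplicit false

open Module
open scoped LinearAlgebra.Projectivization

namespace Pool.Agent.Helper45.U4

open Pool.Agent.Helper53.PB

theorem aHF : StHF := Pool.Agent.Helper89.U4.hHF

theorem aONB : StONB := Pool.Agent.Helper99.U4.hONB aHF

theorem aHSX : StHSX := Pool.Agent.Helper10.U4.hHSX aHF aONB

theorem aHRS : StHRS := Pool.Agent.Helper45.U4.hHRS

theorem aHNB : StHNB := Pool.Agent.Helper72.U4.hHNB aHF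

theorem aCON : StCON := Pool.Agent.Helper45.U4.hCON

theorem aNBX : StNBX := Pool.Agent.Helper16.U4.hNBX

theorem aTHR : StTHR := Pool.Agent.Helper38.U4.hTHR aHNB

theorem aSUM : StSUM := Pool.Agent.Helper97.U4.hSUM

theorem aDCT : StDCT := Pool.Agent.Helper94.U4.hDCT

theorem aRTH : StRTH := Pool.Agent.Helper73.U4.hRTH aSUM aDCT aTHR

theorem aRFO : StRFO := Pool.Agent.Helper6.U4.hRFO aSUM aDCT

theorem aLBD : StLBD := Pool.Agent.Helper45.U4.hLBD aHNB aRTH aRFO aCON aNBX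

theorem aHVY : StHVY := Pool.Agent.Helper32.U4.hHVY aHNB aRTH aCON aNBX aTHR

theorem aVEC : StVEC := Pool.Agent.Helper84.U4.hVEC

theorem aORT : StORT := Pool.Agent.Helper41.U4.hORT aHF aVEC

theorem aFRM : StFRM := Pool.Agent.Helper42.U4.hFRM aHF aONB aVEC aORT

theorem aAVO : StAVO := Pool.Agent.Helper9.U4.hAVO aHNB aTHR

theorem aGEO : StGEO := Pool.Agent.Helper82.U4.hGEO aHNB aTHR aRTH aAVO

theorem aOVC : StOVC := Pool.Agent.Helper40.U4.hOVC aHF aVEC aORT aGEO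

theorem aCFG : StCFG := Pool.Agent.Helper99.U4.hCFG aHF aVEC aORT aGEO aOVC

theorem aEXF : StEXF := Pool.Agent.Helper44.U4.hEXF aHF aVEC aFRM aOVC aCFG

theorem aEXC : StEXC := Pool.Agent.Helper29.U4.hEXC aHF aEXF

theorem aLOW : StLOW := Pool.Agent.Helper75.U4.hLOW aLBD aHVY aEXC

theorem aUPP : StUPP := Pool.Agent.Helper33.U4.hUPP aHF aONB

theorem aPSH : StPSH := Pool.Agent.Helper16.U4.hPSH

theorem aGPG : StGPG := Pool.Agent.Helper12.U4.hGPG

theorem aMNB : StMNB := Pool.Agent.Helper45.U4.hMNB aHRS aLOW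

theorem aTAN : StTAN := Pool.Agent.Helper66.U4.hTAN aHNB aNBX aRFO aGPG aMNB

theorem aHLN : StHLN := Pool.Agent.Helper64.U4.hHLN aHNB aRFO aHRS aHVY aPSH

theorem aEXA : StEXA := Pool.Agent.Helper40.U4.hEXA aHNB aRFO aLBD aNBX aMNB aTAN aHLN

theorem aEXB : StEXB := Pool.Agent.Helper47.U4.hEXB aHNB aRFO aLBD aHRS aPSH aMNB aTAN

theorem aAVL : StAVL := Pool.Agent.Helper45.U4.hAVL

theorem aLHP : StLHP := Pool.Agent.Helper11.U4.hLHP aHF aHRS aLOW aAVL

theorem aCOL : StCOL := Pool.Agent.Helper8.U4.hCOL aHF aHRS aDCT aPSH aEXC aEXB aLHP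

theorem aDBL : StDBL := Pool.Agent.Helper45.U4.hDBL

theorem aFIN : StFIN := Pool.Agent.Helper80.U4.hFIN aDBL

theorem aFFO : StFFO := Pool.Agent.Helper45.U4.hFFO aTHR aEXA aEXB aCOL aFIN

theorem aSTP : StSTP := Pool.Agent.Helper45.U4.hSTP aHRS aHF

theorem u4_final (F : Type) [Field F] (hF : Nat.card F = 4) (V : Type) [AddCommGroup V] [Module F V]
    [FiniteDimensional F V] (σ : F →+* F) (invol : ∀ a, σ (σ a) = a) (ne : ∃ a, σ a ≠ a)
    (B : V →ₗ[F] V →ₛₗ[σ] F) (herm : ∀ x y, B y x = σ (B x y))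
    (nondeg : ∀ x, (∀ y, B x y = 0) → x = 0) (n : ℕ) (hn : 2 ≤ n) (hV : finrank F V = 2 * n + 2) :
    IsLeast {k | ∃ T : Finset (ℙ F V), Blocking (Form.hermitian σ invol ne B herm nondeg) T ∧
      T.card = k} (35 * 4 ^ (n - 2)) :=
  u4_main aHSX aLOW aUPP aMNB aFFO aSTP F hF V σ invol ne B herm nondeg n hn hV

end Pool.Agent.Helper45.U4
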