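import Pool.Agent.Helper45.U4.Defs

/-!
# Project U4: elementary facts on the definitions
-/

set_option autoImplicit false

open Module Classical
open scoped LinearAlgebra.Projectivization

namespace Pool.Agent.Helper45.U4

open Pool.Agent.Helper53.PB

section
variable {F V : Type} [Field F] [AddCommGroup V] [Module F V]

theorem chi_nonneg (T : Finset (ℙ F V)) (y : ℙ F V) : 0 ≤ chi T y := by
  unfold chi
  split_ifs <;> norm_num

theorem chi_mem {T : Finset (ℙ F V)} {y : ℙ F V} (h : y ∈ T) : chi T y = 1 := if_pos h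

theorem chi_not {T : Finset (ℙ F V)} {y : ℙ F V} (h : y ∉ T) : chi T y = 0 := if_neg h

theorem sup_chi {P : Polar F V} {T : Finset (ℙ F V)} (h : ∀ y ∈ T, P.sing y.rep) : Sup P (chi T) := by
  intro y hy
  exact chi_not fun h1 => hy (h y h1)

theorem sup_del {P : Polar F V} {x : ℙ F V} (h : P.sing x.rep) : Sup P (del x) := by
  intro y hy
  unfold del
  rw [if_neg]
  rintro rfl
  exact hy h

theorem Sup.sub {P : Polar F V} {f g : ℙ F V → ℤ} (hf : Sup P f) (hg : Sup P g) :
    Sup P (fun y => f y - g y) := by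
  intro y hy
  show f y - g y = 0
  rw [hf y hy, hg y hy, sub_zero]

theorem Sup.add {P : Polar F V} {f g : ℙ F V → ℤ} (hf : Sup P f) (hg : Sup P g) :
    Sup P (fun y => f y + g y) := by
  intro y hy
  show f y + g y = 0
  rw [hf y hy, hg y hy, add_zero]

end

section
variable {F V : Type} [Field F] [AddCommGroup V] [Module F V] [Finite V]

theorem tf_add (f g : ℙ F V → ℤ) (U : Submodule F V) :
    tf (fun y => f y + g y) U = tf f U + tf g U := Finset.sum_add_distrib

theorem tf_sub (f g : ℙ F V → ℤ) (U : Submodule F V) :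
    tf (fun y => f y - g y) U = tf f U - tf g U := by
  unfold tf
  exact Finset.sum_sub_distrib _ _

theorem nf_sub (P : Polar F V) (f g : ℙ F V → ℤ) (X : ℙ F V) :
    nf P (fun y => f y - g y) X = nf P f X - nf P g X := by
  unfold nf
  exact Finset.sum_sub_distrib _ _

theorem tf_chi (T : Finset (ℙ F V)) (U : Submodule F V) : tf (chi T) U = (tt T U : ℤ) := by
  unfold tf chi tt
  rw [Finset.sum_ite, Finset.sum_const_zero, add_zero, Finset.sum_const, nsmul_eq_mul, mul_one]
  congr 2
  ext y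
  simp only [Finset.mem_filter, mem_pts]
  exact and_comm

theorem nf_chi (P : Polar F V) (T : Finset (ℙ F V)) (X : ℙ F V) :
    nf P (chi T) X = (P.nn T X : ℤ) := by
  unfold nf chi Polar.nn
  rw [Finset.sum_ite, Finset.sum_const_zero, add_zero, Finset.sum_const, nsmul_eq_mul, mul_one]
  congr 2
  ext y
  simp only [Finset.mem_filter, Finset.mem_univ, true_and]
  exact and_comm

theorem sum_chi (T : Finset (ℙ F V)) : ∑ y, chi T y = (T.card : ℤ) := by
  unfold chi
  rw [Finset.sum_ite_mem]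
  simp

theorem tf_del (x : ℙ F V) (U : Submodule F V) : tf (del x) U = if x.rep ∈ U then 1 else 0 := by
  unfold tf del
  rw [Finset.sum_ite_eq' (pts U) x (fun _ => (1 : ℤ))]
  simp only [mem_pts]

theorem sum_del (x : ℙ F V) : ∑ y, del x y = (1 : ℤ) := by
  unfold del
  simp

theorem nf_del (P : Polar F V) (x X : ℙ F V) :
    nf P (del x) X = if P.f x.rep X.rep = 0 then 1 else 0 := by
  unfold nf del
  rw [Finset.sum_ite_eq' _ x (fun _ => (1 : ℤ))]
  simp only [Finset.mem_filter, Finset.mem_univ, true_and]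

theorem tf_nonneg {f : ℙ F V → ℤ} (h : ∀ y, 0 ≤ f y) (U : Submodule F V) : 0 ≤ tf f U :=
  Finset.sum_nonneg fun y _ => h y

theorem nf_nonneg (P : Polar F V) {f : ℙ F V → ℤ} (h : ∀ y, 0 ≤ f y) (X : ℙ F V) : 0 ≤ nf P f X :=
  Finset.sum_nonneg fun y _ => h y

theorem nf_le_sum (P : Polar F V) {f : ℙ F V → ℤ} (h : ∀ y, 0 ≤ f y) (X : ℙ F V) :
    nf P f X ≤ ∑ y, f y :=
  Finset.sum_le_sum_of_subset_of_nonneg (Finset.filter_subset _ _) fun y _ _ => h y

theorem tf_le_sum {f : ℙ F V → ℤ} (h : ∀ y, 0 ≤ f y) (U : Submodule F V) :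
    tf f U ≤ ∑ y, f y :=
  Finset.sum_le_sum_of_subset_of_nonneg (Finset.subset_univ _) fun y _ _ => h y

theorem le_tf {f : ℙ F V → ℤ} (h : ∀ y, 0 ≤ f y) {U : Submodule F V} {y : ℙ F V} (hy : y.rep ∈ U) :
    f y ≤ tf f U :=
  Finset.single_le_sum (fun z _ => h z) (mem_pts.2 hy)

theorem block_tf {P : Polar F V} {T : Finset (ℙ F V)} (hT : P.Block T) {U : Submodule F V}
    (hU : P.Gen U) : 1 ≤ tf (chi T) U := by
  rw [tf_chi]
  exact_mod_cast tt_pos hT hU

end

theorem Hs.finF {F V : Type} [Field F] [AddCommGroup V] [Module F V] {φ : Form F V} {r : ℕ}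
    (h : Hs φ r) : Finite F :=
  Nat.finite_of_card_ne_zero (by rw [h.card]; norm_num)

end Pool.Agent.Helper45.U4
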