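import Mathlib

/-!
# Project U4: vectors of `GF(4)^6` as natural numbers, and a checker for search trees

The code `n < 4096` stands for the vector with coordinates `a_i + b_i ω`, `a_i` = bit `i`, `b_i` = bit `i + 6` of `n`
(`i < 6`).  Coordinates `0, 1` are a hyperbolic pair, coordinates `2, ..., 5` orthonormal.
-/

set_option autoImplicit false

namespace Pool.Agent.Helper45.U4

/-- multiplication by `ω` -/
def wm (n : ℕ) : ℕ := n / 64 + 64 * ((n % 64) ^^^ (n / 64))

/-- parity of the number of ones of a number `< 64` is odd -/
def par (x : ℕ) : ℕ := (7608434000728254870 / 2 ^ x) % 2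

/-- exchange of the bits `0` and `1` -/
def swp (x : ℕ) : ℕ := (x &&& 60) ||| ((x &&& 1) * 2) ||| ((x &&& 2) / 2)

/-- orthogonality of vectors -/
def orth (m n : ℕ) : Bool :=
  let a := m % 64
  let b := m / 64
  let c := swp ((n % 64) ^^^ (n / 64))
  let d := swp (n / 64)
  par ((a &&& c) ^^^ (b &&& d)) == 0 && par ((a &&& d) ^^^ (b &&& c) ^^^ (b &&& d)) == 0

/-- the multiples of `n` -/
def mul4 (n : ℕ) : List ℕ := [0, n, wm n, n ^^^ wm n]

/-- representatives of the points of the plane spanned by `a, b, c` -/
def combos (a b c : ℕ) : List ℕ :=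
  ((mul4 b).flatMap fun u => (mul4 c).map fun v => a ^^^ u ^^^ v) ++ ((mul4 c).map fun v => b ^^^ v) ++ [c]

/-- representatives of the points of the line spanned by `a, b` -/
def combo2 (a b : ℕ) : List ℕ := ((mul4 b).map fun v => a ^^^ v) ++ [b]

/-- `a, b, c` span a totally isotropic plane -/
def okP (a b c : ℕ) : Bool :=
  a < 4096 && b < 4096 && c < 4096 && orth a a && orth b b && orth c c && orth a b && orth a c && orth b c &&
    (combos a b c).all fun x => x != 0

/-- the line through `p, q` contains neither the heavy points (`t = 1`: `x_1`, `t = 2`: `x_1, x_2`) nor is it degenerate -/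
def okv (t n : ℕ) : Bool :=
  n != 0 && (t == 0 || (n != 1 && n != 64 && n != 65)) && (t != 2 || (n != 2 && n != 128 && n != 130))

/-- `p` and `q` cannot both be in the set -/
def conflict (t p q : ℕ) : Bool :=
  orth p q && okv t (p ^^^ q) && okv t (p ^^^ wm q) && okv t (p ^^^ q ^^^ wm q)

/-- `p`, `q` are different points -/
def diffP (p q : ℕ) : Bool := p != q && p != wm q && p != q ^^^ wm q

/-- same point -/
def sameP (p q : ℕ) : Bool := p == q || p == wm q || p == q ^^^ wm q

/-- `p, q, r` are three points on a line through `x_1` or (`t = 2`) `x_2` -/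
def three (t p q r : ℕ) : Bool :=
  diffP p q && diffP p r && diffP q r &&
    ((p ||| q ||| r) &&& 130 == 0 || (t == 2 && (p ||| q ||| r) &&& 65 == 0)) &&
      (p &&& 3900) != 0 && sameP (p &&& 3900) (q &&& 3900) && sameP (p &&& 3900) (r &&& 3900)

/-- multiples of the vectors of the list `O` -/
def inO (O : List ℕ) (y : ℕ) : Bool := O.any fun o => sameP y o

/-- `q` is known not to be in the set: heavy points, and the points perpendicular to `x_1` outside the lines
`x_1 y`, `y ∈ O` -/
def initK (t : ℕ) (O : List ℕ) (q : ℕ) : Bool :=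
  sameP q 1 || (t == 2 && sameP q 2) || (q &&& 130 == 0 && !(inO O (q &&& 3900)))

/-- the four points different from `x_1` of the line `x_1 y` -/
def ln4 (y : ℕ) : List ℕ := [y, y ^^^ 1, y ^^^ 64, y ^^^ 65]

/-- pairs of points -/
def pairs (y : ℕ) : List (List ℕ) :=
  [[y, y ^^^ 1], [y, y ^^^ 64], [y, y ^^^ 65], [y ^^^ 1, y ^^^ 64], [y ^^^ 1, y ^^^ 65], [y ^^^ 64, y ^^^ 65]]

/-- `x_1` or `x_2` -/
def heavy (h : ℕ) : ℕ := if h = 0 then 1 else 2

/-- What is known about the set `In` of (representatives of) points: `t = 0`: one point in every totally isotropic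
plane; `t = 1`: the same except two points in the planes on `x_1`; `t = 2`: also two points in the planes on `x_2`. -/
structure Cfg (In : ℕ → Prop) (t : ℕ) (O B : List ℕ) : Prop where
  base : ∀ c ∈ B, In c
  plane : ∀ a b c, okP a b c = true → ∃ x ∈ combos a b c, In x
  line : ∀ y ∈ O, ∃ x ∈ ln4 y, In x
  pair : t ≠ 0 → ∀ y ∈ O, ∃ pr ∈ pairs y, ∀ x ∈ pr, In x
  partner : ∀ h p, (t ≠ 0 ∧ h = 0) ∨ (t = 2 ∧ h = 1) → In p → orth (heavy h) p = true →
    ∃ x ∈ [p ^^^ heavy h, p ^^^ wm (heavy h), p ^^^ heavy h ^^^ wm (heavy h)], In x
  conf : ∀ p q, In p → In q → conflict t p q = true → False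
  three : ∀ p q r, In p → In q → In r → three t p q r = true → False
  init : ∀ q, In q → initK t O q = true → False

/-- the children of a node -/
def children (t : ℕ) (O inl : List ℕ) (a : ℕ) : Option (List (List ℕ)) :=
  let v := a / 4
  if a % 4 = 0 then
    let p := v % 4096
    let q := (v / 4096) % 4096
    let r := v / 16777216
    if okP p q r then some ((combos p q r).map fun x => [x]) else none
  else if a % 4 = 1 then
    if O.any (fun y => y == v) then some ((ln4 v).map fun x => [x]) else none
  else if a % 4 = 2 then
    if t != 0 && O.any (fun y => y == v) then some (pairs v) else none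
  else
    let h := v % 2
    match inl[v / 2]? with
    | none => none
    | some p =>
      if ((t != 0 && h == 0) || (t == 2 && h == 1)) && orth (heavy h) p then
        some [[p ^^^ heavy h], [p ^^^ wm (heavy h)], [p ^^^ heavy h ^^^ wm (heavy h)]]
      else none

/-- the child `c` is excluded for the reason `i` -/
def dead (t : ℕ) (O inl : List ℕ) (i : ℕ) (c : List ℕ) : Bool :=
  if i = 1022 then c.any (fun x => initK t O x)
  else
    match inl[i % 32]? with
    | none => false
    | some p =>
      if i / 32 = 31 then c.any (fun x => conflict t p x)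
      else
        match inl[i / 32]? with
        | none => false
        | some q => c.any (fun x => three t p q x)

/-- the children of a node, `k` lists the reasons (`1023`: not excluded) -/
def kids (t : ℕ) (O : List ℕ) (rf : List ℕ → List (ℕ × ℕ) → Option (List (ℕ × ℕ))) (inl : List ℕ) :
    List (List ℕ) → ℕ → List (ℕ × ℕ) → Option (List (ℕ × ℕ))
  | [], _, s => some s
  | c :: cs, k, s =>
    let i := k % 1024
    if i = 1023 then
      match rf (c ++ inl) s with
      | none => none
      | some s' => kids t O rf inl cs (k / 1024) s'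
    else if dead t O inl i c then kids t O rf inl cs (k / 1024) s else none

/-- the checker: `s` is the list of the nodes of the search tree in depth first order -/
def run (t : ℕ) (O : List ℕ) : ℕ → List ℕ → List (ℕ × ℕ) → Option (List (ℕ × ℕ))
  | 0, _, _ => none
  | _ + 1, _, [] => none
  | n + 1, inl, (a, k) :: s =>
    match children t O inl a with
    | none => none
    | some ch => kids t O (run t O n) inl ch k s

theorem kids_sound {In : ℕ → Prop} {t : ℕ} {O B : List ℕ} (C : Cfg In t O B)
    {rf : List ℕ → List (ℕ × ℕ) → Option (List (ℕ × ℕ))}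
    (hrf : ∀ inl s s', (∀ x ∈ inl, In x) → rf inl s = some s' → False)
    {inl : List ℕ} (hin : ∀ x ∈ inl, In x) :
    ∀ (ch : List (List ℕ)) (k : ℕ) (s s' : List (ℕ × ℕ)), kids t O rf inl ch k s = some s' →
      ∀ c ∈ ch, (∀ x ∈ c, In x) → False := by
  intro ch
  induction ch with
  | nil => intro k s s' _ c hc; simp at hc
  | cons d ds ih =>
    intro k s s' h c hc hcI
    rw [kids] at h
    split_ifs at h with h1 h2
    · split at h
      · exact absurd h (by simp)
      · rename_i s'' hs''
        rcases List.mem_cons.1 hc with rfl | hc'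
        · refine hrf (c ++ inl) s s'' ?_ hs''
          intro x hx
          rcases List.mem_append.1 hx with hx | hx
          · exact hcI x hx
          · exact hin x hx
        · exact ih _ _ _ h c hc' hcI
    · rcases List.mem_cons.1 hc with rfl | hc'
      · unfold dead at h2
        split at h2
        · obtain ⟨x, hx, hx2⟩ := List.any_eq_true.1 h2
          exact C.init x (hcI x hx) hx2
        · split at h2
          · exact absurd h2 (by simp)
          · rename_i p hp
            have hpI : In p := hin p (List.mem_of_getElem? hp)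
            split at h2
            · obtain ⟨x, hx, hx2⟩ := List.any_eq_true.1 h2
              exact C.conf p x hpI (hcI x hx) hx2
            · split at h2
              · exact absurd h2 (by simp)
              · rename_i q hq
                have hqI : In q := hin q (List.mem_of_getElem? hq)
                obtain ⟨x, hx, hx2⟩ := List.any_eq_true.1 h2
                exact C.three p q x hpI hqI (hcI x hx) hx2
      · exact ih _ _ _ h c hc' hcI

theorem children_sound {In : ℕ → Prop} {t : ℕ} {O B : List ℕ} (C : Cfg In t O B) {inl : List ℕ}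
    (hin : ∀ x ∈ inl, In x) {a : ℕ} {ch : List (List ℕ)} (h : children t O inl a = some ch) :
    ∃ c ∈ ch, ∀ x ∈ c, In x := by
  unfold children at h
  simp only at h
  split_ifs at h with h1 h2 h3 h4 h5 h6
  · obtain ⟨x, hx, hI⟩ := C.plane _ _ _ h2
    rw [Option.some.injEq] at h
    subst h
    exact ⟨[x], List.mem_map.2 ⟨x, hx, rfl⟩, by simpa using hI⟩
  · obtain ⟨y, hy, hy2⟩ := List.any_eq_true.1 h4
    have hy3 : y = a / 4 := by simpa using hy2
    obtain ⟨x, hx, hI⟩ := C.line (a / 4) (hy3 ▸ hy)
    rw [Option.some.injEq] at h
    subst h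
    exact ⟨[x], List.mem_map.2 ⟨x, hx, rfl⟩, by simpa using hI⟩
  · rw [Bool.and_eq_true] at h6
    obtain ⟨y, hy, hy2⟩ := List.any_eq_true.1 h6.2
    have hy3 : y = a / 4 := by simpa using hy2
    obtain ⟨pr, hpr, hI⟩ := C.pair (by simpa using h6.1) (a / 4) (hy3 ▸ hy)
    rw [Option.some.injEq] at h
    subst h
    exact ⟨pr, hpr, hI⟩
  · split at h
    · exact absurd h (by simp)
    · rename_i p hp
      have hpI : In p := hin p (List.mem_of_getElem? hp)
      split_ifs at h with h7
      rw [Bool.and_eq_true] at h7
      obtain ⟨x, hx, hI⟩ := C.partner (a / 4 % 2) p (by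
        have := h7.1
        simp only [Bool.or_eq_true, Bool.and_eq_true, bne_iff_ne, ne_eq, beq_iff_eq] at this
        exact this) hpI h7.2
      rw [Option.some.injEq] at h
      subst h
      refine ⟨[x], ?_, by simpa using hI⟩
      simp only [List.mem_cons, List.not_mem_nil, or_false] at hx
      rcases hx with rfl | rfl | rfl <;> simp

theorem run_sound {In : ℕ → Prop} {t : ℕ} {O B : List ℕ} (C : Cfg In t O B) :
    ∀ (n : ℕ) (inl : List ℕ) (s s' : List (ℕ × ℕ)), (∀ x ∈ inl, In x) → run t O n inl s = some s' → False := by
  intro n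
  induction n with
  | zero => intro inl s s' _ h; simp [run] at h
  | succ n ih =>
    intro inl s s' hin h
    cases s with
    | nil => simp [run] at h
    | cons ak s =>
      obtain ⟨a, k⟩ := ak
      rw [run] at h
      split at h
      · exact absurd h (by simp)
      · rename_i ch hch
        obtain ⟨c, hc, hcI⟩ := children_sound C hin hch
        exact kids_sound C ih hin ch k s s' h c hc hcI

theorem cfg_false {In : ℕ → Prop} {t : ℕ} {O B : List ℕ} (n : ℕ) (s : List (ℕ × ℕ))
    (h : (run t O n B s).isSome = true) (C : Cfg In t O B) : False := by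
  obtain ⟨s', hs'⟩ := Option.isSome_iff_exists.1 h
  exact run_sound C n B s s' C.base hs'

end Pool.Agent.Helper45.U4
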