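import Pool.Agent.Helper53.PB.Lift
import Pool.Agent.Helper53.PB.Weight

/-!
# Project U4 (MP_a1f43d_co): definitions

Sets meeting every generator of the Hermitian polar spaces `U(2n+1,4)`.
-/

set_option autoImplicit false

open Module Classical
open scoped LinearAlgebra.Projectivization

namespace Pool.Agent.Helper45.U4

open Pool.Agent.Helper53.PB

/-- The Hermitian polar space of rank `r` in a vector space of dimension `2 r` over the field with four elements. -/
structure Hs {F V : Type} [Field F] [AddCommGroup V] [Module F V] (φ : Form F V) (r : ℕ) : Prop where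
  kind : φ.kind = .hermitian
  card : Nat.card F = 4
  dim : finrank F V = 2 * r
  gen : ∀ U, φ.toPolar.Gen U → finrank F U = r

section
variable {F V V0 : Type} [Field F] [AddCommGroup V] [Module F V] [AddCommGroup V0] [Module F V0]

/-- the sum of `f` over the points of `U` -/
noncomputable def tf [Finite V] (f : ℙ F V → ℤ) (U : Submodule F V) : ℤ := ∑ y ∈ pts U, f y

/-- the sum of `f` over the points perpendicular to `X` -/
noncomputable def nf [Finite V] (P : Polar F V) (f : ℙ F V → ℤ) (X : ℙ F V) : ℤ :=
  ∑ y ∈ Finset.univ.filter (fun y => P.f y.rep X.rep = 0), f y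

/-- `f` vanishes outside the singular points -/
def Sup (P : Polar F V) (f : ℙ F V → ℤ) : Prop := ∀ y, ¬ P.sing y.rep → f y = 0

/-- the indicator function of `T` -/
noncomputable def chi (T : Finset (ℙ F V)) : ℙ F V → ℤ := fun y => if y ∈ T then 1 else 0

/-- the indicator function of the point `x` -/
noncomputable def del (x : ℙ F V) : ℙ F V → ℤ := fun y => if y = x then 1 else 0

/-- the push-forward of `f` to the residue of the point spanned by `v` -/
noncomputable def pu [Finite V] (ι : V0 →ₗ[F] V) (v : V) (f : ℙ F V → ℤ) : ℙ F V0 → ℤ :=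
  fun Q => ∑ y ∈ pts (Submodule.span F {v} ⊔ Submodule.span F {ι Q.rep}) \ pts (Submodule.span F {v}), f y

/-- the sum of `k` over the hyperplanes (points of the dual space) that contain the vector `x` -/
noncomputable def hs [Finite (Dual F V)] (k : ℙ F (Dual F V) → ℕ) (x : V) : ℕ :=
  ∑ G ∈ Finset.univ.filter (fun G : ℙ F (Dual F V) => G.rep x = 0), k G

/-- `S(X)` for a set `T` of points in rank `4` -/
noncomputable def s4 [Finite V] (P : Polar F V) (f : ℙ F V → ℤ) (X : ℙ F V) : ℤ :=
  nf P f X - 33 + 32 * f X

/-- `S(X)` in rank `3` -/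
noncomputable def s3 [Finite V] (P : Polar F V) (f : ℙ F V → ℤ) (X : ℙ F V) : ℤ :=
  nf P f X - 9 + 8 * f X

end

/-- the standard Gram matrix: `b 0, b 1` a hyperbolic pair, `b 2, ..., b 5` orthonormal -/
def gm (F : Type) [Field F] (i j : Fin 6) : F :=
  if (i = 0 ∧ j = 1) ∨ (i = 1 ∧ j = 0) ∨ (i = j ∧ 2 ≤ i) then 1 else 0

/-- a standard frame of the Hermitian space of dimension `6` -/
structure Fr {F V : Type} [Field F] [AddCommGroup V] [Module F V] (φ : Form F V) (b : Fin 6 → V) : Prop where
  gram : ∀ i j, φ.f (b i) (b j) = gm F i j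
  li : LinearIndependent F b
  sp : Submodule.span F (Set.range b) = ⊤

/-- the set of sizes of the sets meeting all generators has minimum `m`, for all Hermitian polar spaces of rank `r` in
dimension `2 r` over the field with four elements -/
def HM (F : Type) [Field F] (r m : ℕ) : Prop :=
  ∀ (V : Type) [AddCommGroup V] [Module F V] [FiniteDimensional F V] (φ : Form F V), Hs φ r →
    (∃ T : Finset (ℙ F V), φ.toPolar.Block T ∧ T.card ≤ m) ∧
      ∀ T : Finset (ℙ F V), φ.toPolar.Block T → m ≤ T.card

end Pool.Agent.Helper45.U4
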