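import Pool.Agent.Helper45.U4.Bas
import Pool.Agent.Helper45.U4.OvTree

/-!
# Project U4 (MP_a1f43d_co): further definitions
-/

set_option autoImplicit false

open Module Classical
open scoped LinearAlgebra.Projectivization

namespace Pool.Agent.Helper45.U4

open Pool.Agent.Helper53.PB

section
variable {F V V0 : Type} [Field F] [AddCommGroup V] [Module F V] [AddCommGroup V0] [Module F V0]

/-- the sum of `f` over the points perpendicular to all of `L` -/
noncomputable def np [Finite V] (P : Polar F V) (f : ℙ F V → ℤ) (L : Submodule F V) : ℤ :=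
  ∑ y ∈ Finset.univ.filter (fun y : ℙ F V => L ≤ LinearMap.ker (P.f y.rep)), f y

/-- three generators on `E`, pairwise meeting in `E`, and no others -/
structure Thr (P : Polar F V) (E U0 U1 U2 : Submodule F V) : Prop where
  g0 : P.Gen U0
  g1 : P.Gen U1
  g2 : P.Gen U2
  i01 : U0 ⊓ U1 = E
  i02 : U0 ⊓ U2 = E
  i12 : U1 ⊓ U2 = E
  all : ∀ W, P.Gen W → E ≤ W → W = U0 ∨ W = U1 ∨ W = U2

/-- the vector with the code `n` in the frame `b` -/
noncomputable def vv (ω : F) (b : Fin 6 → V) (n : ℕ) : V :=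
  ∑ i : Fin 6, ((if n.testBit i then (1 : F) else 0) + (if n.testBit (i + 6) then ω else 0)) • b i

/-- `ω` is a primitive element of the field with four elements -/
structure Om (ω : F) : Prop where
  ne : ω ≠ 0
  ne1 : ω ≠ 1
  sq : ω ^ 2 = ω + 1
  all : ∀ c : F, c = 0 ∨ c = 1 ∨ c = ω ∨ c = ω + 1
  two : ∀ c : F, c + c = 0

/-- `v` spans a point where `f` is positive -/
def IV (f : ℙ F V → ℤ) (v : V) : Prop := ∃ h : v ≠ 0, 0 < f (Projectivization.mk F v h)

/-- codes of the points with positive `f` -/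
def InC (ω : F) (b : Fin 6 → V) (f : ℙ F V → ℤ) (n : ℕ) : Prop := n < 4096 ∧ IV f (vv ω b n)

/-- codes (with vanishing coordinates `0`, `1`) of the lines through `b 0` which contain a point with positive `f`
different from `b 0` -/
def InO (ω : F) (b : Fin 6 → V) (f : ℙ F V → ℤ) (n : ℕ) : Prop :=
  n < 4096 ∧ n &&& 195 = 0 ∧ n ≠ 0 ∧ ∃ c : F, IV f (vv ω b n + c • b 0)

/-- every generator `U` contains `1 + [X₁ ∈ U] + [X₂ ∈ U]` points (`t = 2`), `1 + [X₁ ∈ U]` points (`t = 1`), `1` point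
(`t = 0`) of the multiset `f`, in the Hermitian space of rank three -/
structure Ty (φ : Form F V) [Finite V] (f : ℙ F V → ℤ) (t : ℕ) (X1 X2 : ℙ F V) : Prop where
  hs : Hs φ 3
  nonneg : ∀ y, 0 ≤ f y
  sup : Sup φ.toPolar f
  s1 : φ.Sing X1.rep
  s2 : φ.Sing X2.rep
  ne : φ.f X1.rep X2.rep ≠ 0
  z1 : f X1 = 0
  z2 : t = 2 → f X2 = 0
  le : t ≤ 2
  tf : ∀ U, φ.toPolar.Gen U →
    tf f U = 1 + (if t ≠ 0 ∧ X1.rep ∈ U then 1 else 0) + (if t = 2 ∧ X2.rep ∈ U then 1 else 0)

/-- `Q` is the projection of the point `x` from `R` -/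
def Pj (ι : V0 →ₗ[F] V) (R x : ℙ F V) (Q : ℙ F V0) : Prop :=
  ∃ c a : F, c ≠ 0 ∧ ι Q.rep = c • x.rep + a • R.rep

/-- a smallest set meeting all generators in rank `4`, of size `139` -/
structure Mn (φ : Form F V) (T : Finset (ℙ F V)) : Prop where
  hs : Hs φ 4
  block : φ.toPolar.Block T
  card : T.card = 139
  min : ∀ T', φ.toPolar.Block T' → T.card ≤ T'.card

/-- the multiset `X` attached to `T` -/
structure XX (φ : Form F V) [Finite V] (T : Finset (ℙ F V)) (X : ℙ F V → ℤ) : Prop where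
  nonneg : ∀ y, 0 ≤ X y
  sup : Sup φ.toPolar X
  tot : ∑ y, X y = 10
  tt : ∀ U, φ.toPolar.Gen U → (tt T U : ℤ) = 1 + tf X U
  zero : ∀ z ∈ T, X z = 0

end

end Pool.Agent.Helper45.U4
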