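import Pool.Agent.Helper45.U4.OvTree

/-!
# Project U4: the standard ovoids of `H(3,4)` are maximal
-/

set_option autoImplicit false
set_option maxRecDepth 100000

namespace Pool.Agent.Helper45.U4

theorem iniA : ((List.range 4096).all fun y => (y &&& 195 != 0) || y == 0 || !(orth y y) || inO oA y ||
    (oA.any fun z => conflict 0 y z)) = true := by decide +kernel

theorem iniB : ((List.range 4096).all fun y => (y &&& 195 != 0) || y == 0 || !(orth y y) || inO oB y ||
    (oB.any fun z => conflict 0 y z)) = true := by decide +kernel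

theorem ini {O : List ℕ} (hO : O = oA ∨ O = oB) {y : ℕ} (hy : y < 4096) (h1 : y &&& 195 = 0) (h2 : y ≠ 0)
    (h3 : orth y y = true) (h4 : inO O y = false) : ∃ z ∈ O, conflict 0 y z = true := by
  have key : ∀ O : List ℕ, ((List.range 4096).all fun y => (y &&& 195 != 0) || y == 0 || !(orth y y) || inO O y ||
      (O.any fun z => conflict 0 y z)) = true → inO O y = false → ∃ z ∈ O, conflict 0 y z = true := by
    intro O hO h4
    have := List.all_eq_true.1 hO y (List.mem_range.2 hy)
    rw [h3, h4] at this
    simp only [h1, bne_self_eq_false, Bool.false_or, Bool.not_true, Bool.or_false, Bool.or_eq_true, beq_iff_eq,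
      h2, false_or] at this
    obtain ⟨z, hz, hz2⟩ := List.any_eq_true.1 this
    exact ⟨z, hz, hz2⟩
  rcases hO with rfl | rfl
  · exact key _ iniA h4
  · exact key _ iniB h4

/-- the codes of the two standard ovoids -/
theorem oAB {O : List ℕ} (hO : O = oA ∨ O = oB) {y : ℕ} (hy : y ∈ O) :
    y < 4096 ∧ y &&& 195 = 0 ∧ y ≠ 0 ∧ orth y y = true := by
  have h : ∀ O : List ℕ, (O.all fun y => (y < 4096 : Bool) && y &&& 195 == 0 && y != 0 && orth y y) = true →
      y ∈ O → y < 4096 ∧ y &&& 195 = 0 ∧ y ≠ 0 ∧ orth y y = true := by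
    intro O h1 h2
    have := List.all_eq_true.1 h1 y h2
    simp only [Bool.and_eq_true, decide_eq_true_eq, beq_iff_eq, bne_iff_ne, ne_eq] at this
    exact ⟨this.1.1.1, this.1.1.2, this.1.2, this.2⟩
  rcases hO with rfl | rfl
  · exact h _ (by decide +kernel) hy
  · exact h _ (by decide +kernel) hy

end Pool.Agent.Helper45.U4
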