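import Pool.Agent.Helper45.U4.St2

set_option autoImplicit false

open Module Classical
open scoped LinearAlgebra.Projectivization

namespace Pool.Agent.Helper45.U4

open Pool.Agent.Helper53.PB

/-- in a space of dimension three a line through `p` that avoids two other points -/
theorem AVO_line {F V : Type} [Field F] [AddCommGroup V] [Module F V] [FiniteDimensional F V]
    {U : Submodule F V} (hU : finrank F U = 3) {p X Y : ℙ F V} (hp : p.rep ∈ U) (hX : X ≠ p) (hY : Y ≠ p) :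
    ∃ L : Submodule F V, L ≤ U ∧ finrank F L = 2 ∧ p.rep ∈ L ∧ X.rep ∉ L ∧ Y.rep ∉ L := by
  -- two lines through p meeting in p only
  have key : ∀ L1 L2 : Submodule F V, finrank F L1 = 2 → finrank F L2 = 2 → p.rep ∈ L1 → p.rep ∈ L2 → L1 ≠ L2 →
      ∀ Z : ℙ F V, Z ≠ p → Z.rep ∈ L1 → Z.rep ∉ L2 := by
    intro L1 L2 h1 h2 hp1 hp2 hne Z hZ hZ1 hZ2
    apply hne
    have h3 : line p Z = L1 := by
      apply Submodule.eq_of_le_of_finrank_eq (line_le hp1 hZ1)
      rw [finrank_line (Ne.symm hZ), h1]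
    have h4 : line p Z = L2 := by
      apply Submodule.eq_of_le_of_finrank_eq (line_le hp2 hZ2)
      rw [finrank_line (Ne.symm hZ), h2]
    exact h3.symm.trans h4
  -- points a, b with U = span {p, a, b}
  obtain ⟨a, haU, hap⟩ : ∃ a ∈ U, a ∉ Submodule.span F {p.rep} := by
    by_contra hcon
    push Not at hcon
    have h1 := Submodule.finrank_mono (show U ≤ Submodule.span F {p.rep} from hcon)
    rw [hU, finrank_span_singleton p.rep_nonzero] at h1
    omega
  have hLa : finrank F (Submodule.span F {p.rep} ⊔ Submodule.span F {a} : Submodule F V) = 2 := by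
    have ha0 : a ≠ 0 := fun h => hap (h ▸ zero_mem _)
    have hapt : Projectivization.mk F a ha0 ≠ p := by
      intro h
      apply hap
      rw [← h]
      have := (rep_mk_mem (W := Submodule.span F {(Projectivization.mk F a ha0).rep}) ha0).1
        (Submodule.mem_span_singleton_self _)
      exact this
    have h1 := finrank_line (Ne.symm hapt)
    have h2 : line p (Projectivization.mk F a ha0) = Submodule.span F {p.rep} ⊔ Submodule.span F {a} := by
      apply Submodule.eq_of_le_of_finrank_le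
      · apply line_le
        · exact Submodule.mem_sup_left (Submodule.mem_span_singleton_self _)
        · rw [rep_mk_mem]
          exact Submodule.mem_sup_right (Submodule.mem_span_singleton_self _)
      · rw [h1]
        refine (Submodule.finrank_add_le_finrank_add_finrank _ _).trans ?_
        rw [finrank_span_singleton p.rep_nonzero, finrank_span_singleton ha0]
    rw [← h2, h1]
  obtain ⟨La, hLad⟩ : ∃ La, La = Submodule.span F {p.rep} ⊔ Submodule.span F {a} := ⟨_, rfl⟩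
  rw [← hLad] at hLa
  obtain ⟨b, hbU, hbL⟩ : ∃ b ∈ U, b ∉ La := by
    by_contra hcon
    push Not at hcon
    have h1 := Submodule.finrank_mono (show U ≤ La from hcon)
    omega
  have hpa : p.rep ∈ La := by
    rw [hLad]
    exact Submodule.mem_sup_left (Submodule.mem_span_singleton_self _)
  have haLa : a ∈ La := by
    rw [hLad]
    exact Submodule.mem_sup_right (Submodule.mem_span_singleton_self _)
  have hLaU : La ≤ U := by
    rw [hLad, sup_le_iff, Submodule.span_singleton_le_iff_mem, Submodule.span_singleton_le_iff_mem]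
    exact ⟨hp, haU⟩
  -- general: line through p and c for c ∉ La
  have hgen : ∀ c ∈ U, c ∉ La → ∃ L : Submodule F V, L ≤ U ∧ finrank F L = 2 ∧ p.rep ∈ L ∧ c ∈ L := by
    intro c hc hcL
    have hc0 : c ≠ 0 := fun h => hcL (h ▸ zero_mem _)
    have hcp : Projectivization.mk F c hc0 ≠ p := by
      intro h
      apply hcL
      have := (rep_mk_mem (W := La) hc0).1 (by rw [h]; exact hpa)
      exact this
    refine ⟨line p (Projectivization.mk F c hc0), line_le hp ((rep_mk_mem hc0).2 hc), finrank_line (Ne.symm hcp),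
      left_mem_line _ _, ?_⟩
    exact (rep_mk_mem hc0).1 (right_mem_line _ _)
  obtain ⟨Lb, hLbU, hLb2, hpLb, hbLb⟩ := hgen b hbU hbL
  have habL : a + b ∉ La := fun h => hbL (by
    have := La.sub_mem h haLa
    rwa [add_sub_cancel_left] at this)
  obtain ⟨Lc, hLcU, hLc2, hpLc, hcLc⟩ := hgen (a + b) (U.add_mem haU hbU) habL
  have hab : La ≠ Lb := by
    rintro rfl
    exact hbL hbLb
  have hac : La ≠ Lc := by
    rintro rfl
    exact habL hcLc
  have hbc : Lb ≠ Lc := by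
    rintro rfl
    apply hbL
    have ha' : a ∈ Lb := by
      have := Lb.sub_mem hcLc hbLb
      rwa [add_sub_cancel_right] at this
    have h5 : La ≤ Lb := by
      rw [hLad, sup_le_iff, Submodule.span_singleton_le_iff_mem, Submodule.span_singleton_le_iff_mem]
      exact ⟨hpLb, ha'⟩
    rw [Submodule.eq_of_le_of_finrank_eq h5 (by rw [hLa, hLb2])]
    exact hbLb
  by_cases hXa : X.rep ∈ La
  · by_cases hYb : Y.rep ∈ Lb
    · exact ⟨Lc, hLcU, hLc2, hpLc, key La Lc hLa hLc2 hpa hpLc hac X hX hXa,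
        key Lb Lc hLb2 hLc2 hpLb hpLc hbc Y hY hYb⟩
    · exact ⟨Lb, hLbU, hLb2, hpLb, key La Lb hLa hLb2 hpa hpLb hab X hX hXa, hYb⟩
  · by_cases hYa : Y.rep ∈ La
    · by_cases hXb : X.rep ∈ Lb
      · exact ⟨Lc, hLcU, hLc2, hpLc, key Lb Lc hLb2 hLc2 hpLb hpLc hbc X hX hXb,
          key La Lc hLa hLc2 hpa hpLc hac Y hY hYa⟩
      · exact ⟨Lb, hLbU, hLb2, hpLb, hXb, key La Lb hLa hLb2 hpa hpLb hab Y hY hYa⟩
    · exact ⟨La, hLaU, hLa, hpa, hXa, hYa⟩

theorem hAVO (_h1 : StHNB) (h2 : StTHR) : StAVO := by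
  intro F V _ _ _ _ _ _ φ hφ p X Y hp hX hY
  obtain ⟨U, hU, hle⟩ := Polar.exists_gen_ge (span_ts (P := φ.toPolar) hp)
  have hpU : p.rep ∈ U := hle (Submodule.mem_span_singleton_self _)
  obtain ⟨L, hLU, hL2, hpL, hXL, hYL⟩ := AVO_line (hφ.gen U hU) hpU hX hY
  obtain ⟨⟨U0, U1, U2, hT⟩, _⟩ := h2 φ 3 hφ L (hU.1.mono hLU) (by omega)
  have hL0 : L ≤ U0 := hT.i01 ▸ inf_le_left
  have hL1 : L ≤ U1 := hT.i01 ▸ inf_le_right
  have hL2' : L ≤ U2 := hT.i02 ▸ inf_le_right
  have k01 : ∀ z, z ∉ L → z ∈ U0 → z ∉ U1 := fun z hz h0 h1 => hz (hT.i01 ▸ ⟨h0, h1⟩)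
  have k02 : ∀ z, z ∉ L → z ∈ U0 → z ∉ U2 := fun z hz h0 h1 => hz (hT.i02 ▸ ⟨h0, h1⟩)
  have k12 : ∀ z, z ∉ L → z ∈ U1 → z ∉ U2 := fun z hz h0 h1 => hz (hT.i12 ▸ ⟨h0, h1⟩)
  by_cases hX0 : X.rep ∈ U0
  · by_cases hY1 : Y.rep ∈ U1
    · exact ⟨U2, hT.g2, hL2' hpL, k02 _ hXL hX0, k12 _ hYL hY1⟩
    · exact ⟨U1, hT.g1, hL1 hpL, k01 _ hXL hX0, hY1⟩
  · by_cases hY0 : Y.rep ∈ U0
    · by_cases hX1 : X.rep ∈ U1
      · exact ⟨U2, hT.g2, hL2' hpL, k12 _ hXL hX1, k02 _ hYL hY0⟩
      · exact ⟨U1, hT.g1, hL1 hpL, hX1, k01 _ hYL hY0⟩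
    · exact ⟨U0, hT.g0, hL0 hpL, hX0, hY0⟩

end Pool.Agent.Helper45.U4
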