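import Pool.Agent.Helper45.U4.Code

/-!
# Project U4: a checker for the classification of the ovoids of `H(3,4)`

The codes are those of `Code.lean` with the coordinates `0` and `1` equal to zero.
-/

set_option autoImplicit false

namespace Pool.Agent.Helper45.U4

/-- `a, b` span a totally isotropic line in the coordinates `2, ..., 5` -/
def okL (a b : ℕ) : Bool :=
  a < 4096 && b < 4096 && a &&& 195 == 0 && b &&& 195 == 0 && orth a a && orth b b && orth a b &&
    (combo2 a b).all fun x => x != 0

/-- `e 0, ..., e 3` are an orthonormal frame of the coordinates `2, ..., 5` -/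
def okF (e0 e1 e2 e3 : ℕ) : Bool :=
  ([e0, e1, e2, e3].all fun x => x < 4096 && x &&& 195 == 0 && !(orth x x)) &&
    orth e0 e1 && orth e0 e2 && orth e0 e3 && orth e1 e2 && orth e1 e3 && orth e2 e3

/-- the vector with the coordinates of `y` (in the places `2, ..., 5`) in the frame `e` -/
def img (e0 e1 e2 e3 y : ℕ) : ℕ :=
  (if y.testBit 2 then e0 else 0) ^^^ (if y.testBit 8 then wm e0 else 0) ^^^
    (if y.testBit 3 then e1 else 0) ^^^ (if y.testBit 9 then wm e1 else 0) ^^^
      (if y.testBit 4 then e2 else 0) ^^^ (if y.testBit 10 then wm e2 else 0) ^^^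
        (if y.testBit 5 then e3 else 0) ^^^ (if y.testBit 11 then wm e3 else 0)

/-- `In` is (the set of representatives of) a set with exactly one point on every totally isotropic line of `H(3,4)` -/
structure Ov (In : ℕ → Prop) : Prop where
  line : ∀ a b, okL a b = true → ∃ x ∈ combo2 a b, In x
  conf : ∀ p q, In p → In q → conflict 0 p q = true → False
  scal : ∀ p, In p → In (wm p) ∧ In (p ^^^ wm p)

/-- there is an orthonormal frame in which `In` contains the standard ovoid `O` -/
def Good (In : ℕ → Prop) (O : List ℕ) : Prop :=
  ∃ e0 e1 e2 e3, okF e0 e1 e2 e3 = true ∧ ∀ y ∈ O, In (img e0 e1 e2 e3 y)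

/-- children of a node -/
def kidsO (rf : List ℕ → List ℕ → Option (List ℕ)) (inl : List ℕ) : List ℕ → List ℕ → Option (List ℕ)
  | [], s => some s
  | c :: cs, s =>
    if inl.any (fun p => conflict 0 p c) then kidsO rf inl cs s
    else
      match rf (c :: inl) s with
      | none => none
      | some s' => kidsO rf inl cs s'

/-- a leaf: the frame `v` transforms the standard ovoid into a subset of `inl` -/
def leafO (OA OB : List ℕ) (inl : List ℕ) (v : ℕ) : Bool :=
  let e0 := (v / 2) % 4096
  let e1 := (v / 8192) % 4096
  let e2 := (v / 33554432) % 4096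
  let e3 := v / 137438953472
  okF e0 e1 e2 e3 && (if v % 2 = 0 then OA else OB).all fun y => inl.any fun p => sameP (img e0 e1 e2 e3 y) p

/-- the checker -/
def runO (OA OB : List ℕ) : ℕ → List ℕ → List ℕ → Option (List ℕ)
  | 0, _, _ => none
  | _ + 1, _, [] => none
  | n + 1, inl, a :: s =>
    if a % 2 = 0 then
      let p := (a / 2) % 4096
      let q := a / 8192
      if okL p q then kidsO (runO OA OB n) inl (combo2 p q) s else none
    else if leafO OA OB inl (a / 2) then some s else none

theorem kidsO_sound {In : ℕ → Prop} {G : Prop} (C : Ov In)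
    {rf : List ℕ → List ℕ → Option (List ℕ)}
    (hrf : ∀ inl s s', (∀ x ∈ inl, In x) → rf inl s = some s' → G)
    {inl : List ℕ} (hin : ∀ x ∈ inl, In x) :
    ∀ (ch : List ℕ) (s s' : List ℕ), kidsO rf inl ch s = some s' → ∀ c ∈ ch, In c → G := by
  intro ch
  induction ch with
  | nil => intro s s' _ c hc; simp at hc
  | cons d ds ih =>
    intro s s' h c hc hcI
    rw [kidsO] at h
    split at h
    · rename_i h1
      rcases List.mem_cons.1 hc with rfl | hc'
      · obtain ⟨x, hx, hx2⟩ := List.any_eq_true.1 h1
        exact (C.conf x c (hin x hx) hcI hx2).elim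
      · exact ih _ _ h c hc' hcI
    · split at h
      · exact absurd h (by simp)
      · rename_i s'' hs''
        rcases List.mem_cons.1 hc with rfl | hc'
        · refine hrf (c :: inl) s s'' ?_ hs''
          intro x hx
          rcases List.mem_cons.1 hx with rfl | hx
          · exact hcI
          · exact hin x hx
        · exact ih _ _ h c hc' hcI

theorem sameP_in {In : ℕ → Prop} (C : Ov In) {x p : ℕ} (hp : In p) (h : sameP x p = true) : In x := by
  unfold sameP at h
  simp only [Bool.or_eq_true, beq_iff_eq] at h
  rcases h with (rfl | rfl) | rfl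
  · exact hp
  · exact (C.scal p hp).1
  · exact (C.scal p hp).2

theorem runO_sound {In : ℕ → Prop} {OA OB : List ℕ} (C : Ov In) :
    ∀ (n : ℕ) (inl : List ℕ) (s s' : List ℕ), (∀ x ∈ inl, In x) → runO OA OB n inl s = some s' →
      Good In OA ∨ Good In OB := by
  intro n
  induction n with
  | zero => intro inl s s' _ h; simp [runO] at h
  | succ n ih =>
    intro inl s s' hin h
    cases s with
    | nil => simp [runO] at h
    | cons a s =>
      rw [runO] at h
      simp only at h
      split at h
      · split at h
        · rename_i hok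
          obtain ⟨c, hc, hcI⟩ := C.line _ _ hok
          exact kidsO_sound C ih hin _ s s' h c hc hcI
        · exact absurd h (by simp)
      · split at h
        · rename_i hlf
          unfold leafO at hlf
          simp only [Bool.and_eq_true] at hlf
          obtain ⟨h1, h2⟩ := hlf
          split at h2
          · left
            refine ⟨_, _, _, _, h1, fun y hy => ?_⟩
            obtain ⟨p, hp, hp2⟩ := List.any_eq_true.1 (List.all_eq_true.1 h2 y hy)
            exact sameP_in C (hin p hp) hp2
          · right
            refine ⟨_, _, _, _, h1, fun y hy => ?_⟩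
            obtain ⟨p, hp, hp2⟩ := List.any_eq_true.1 (List.all_eq_true.1 h2 y hy)
            exact sameP_in C (hin p hp) hp2
        · exact absurd h (by simp)

end Pool.Agent.Helper45.U4
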