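import Pool.Agent.Helper45.U4.Defs2

/-!
# Project U4 (MP_a1f43d_co): statements, first part (Hermitian spaces over the field with four elements, counting), with
complete proofs

`P = φ.toPolar` for a Hermitian form `φ` over `F`, `Nat.card F = 4`; `P.f x y = φ.f x y`, `P.sing = φ.Sing`
(definitionally).  In the Hermitian case `φ.f x y = B y x` is linear in `y` and `σ`-semilinear in `x`.  `Gen` are the
generators; `Hs φ r` means: Hermitian, `|F| = 4`, dimension `2 r`, all generators of dimension `r`.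
`tf f U` = sum of `f` over the points of `U`, `nf P f X` = sum of `f` over the points perpendicular to `X`, `np P f L` =
sum of `f` over the points perpendicular to all of `L`.  `Sup P f`: `f` vanishes on the nonsingular points.
Useful library: Pool.Agent.Helper53.PB (Polar, Count, Weight, Residue, Forms, Lift, Symp, WThree).
-/

set_option autoImplicit false

open Module Classical
open scoped LinearAlgebra.Projectivization

namespace Pool.Agent.Helper45.U4

open Pool.Agent.Helper53.PB

/-- **HF** (algebra of the form).  Proof: cases on `φ` (the other kinds contradict `hk`).  `F` has four elements: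
characteristic `2` (`4 = 0` in `F` and `F` is a field), `c ^ 3 = 1` for `c ≠ 0` (`FiniteField.pow_card_sub_one_eq_one`); there is `ω` other than `0, 1`,
then `ω ^ 3 = 1` gives `ω ^ 2 = ω + 1` and `F = {0, 1, ω, ω + 1}`.  `σ` fixes `0, 1` and moves some element, hence `σ ω = ω + 1 = ω ^ 2`
(it is injective) and `σ c = c ^ 2` for all `c`.  `f x x = B x x` is fixed by `σ` (herm), so it is `0` or `1`. -/
def StHF : Prop :=
  ∀ {F V : Type} [Field F] [AddCommGroup V] [Module F V] (φ : Form F V), φ.kind = .hermitian → Nat.card F = 4 →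
  (∃ ω : F, Om ω) ∧ (∀ c : F, c ≠ 0 → c ^ 3 = 1) ∧
  (∀ x y z, φ.f (x + y) z = φ.f x z + φ.f y z) ∧ (∀ (c : F) x y, φ.f (c • x) y = c ^ 2 * φ.f x y) ∧
  (∀ x y, φ.f y x = φ.f x y ^ 2) ∧ (∀ x, φ.Sing x ↔ φ.f x x = 0) ∧ (∀ x, φ.f x x = 0 ∨ φ.f x x = 1) ∧
  (∀ x, (∀ y, φ.f x y = 0) → x = 0)

/-- **ONB** (orthonormal bases; hypothesis HF).  Proof: induction on `n`.  If all vectors were singular then
`0 = f (x + c y) (x + c y) = c f x y + (c f x y) ^ 2` for all `c`, so `f = 0`, impossible for `n ≥ 1`; so there is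
`u` with `f u u = 1`.  `W = u^⊥` (kernel of `φ.f u`) has dimension `n - 1`, `u ∉ W`, and the form restricted to `W` (`Form.restrict`) is
non-degenerate: `x ∈ W` perpendicular to `W` is perpendicular to `u` and `W`, hence to `V`.  Add `u` to an orthonormal basis of `W`. -/
def StONB : Prop :=
  ∀ {F V : Type} [Field F] [AddCommGroup V] [Module F V] [FiniteDimensional F V] (φ : Form F V) (n : ℕ),
  φ.kind = .hermitian → Nat.card F = 4 → finrank F V = n →
  ∃ e : Fin n → V, (∀ i j, φ.f (e i) (e j) = if i = j then 1 else 0) ∧ LinearIndependent F e ∧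
    Submodule.span F (Set.range e) = ⊤

/-- **HSX** (rank; hypotheses HF, ONB).  Proof: totally singular `U` satisfies `2 dim U ≤ 2 r`: `U ≤ U^⊥` and
`dim U^⊥ = 2 r - dim U` (the map `V → Dual U`, `x ↦ φ.f x` restricted to `U`, semilinear; or: the functionals `φ.f u`, `u` in a basis of `U`, are independent by
nondegeneracy).  With an orthonormal basis `e` the vectors `e (2 i) + e (2 i + 1)`, `i < r`, span a totally
singular subspace of dimension `r`, which is contained in a generator; all generators have the same dimension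
(`Polar.gen_finrank_eq`). -/
def StHSX : Prop :=
  ∀ {F V : Type} [Field F] [AddCommGroup V] [Module F V] [FiniteDimensional F V] (φ : Form F V) (r : ℕ),
  φ.kind = .hermitian → Nat.card F = 4 → finrank F V = 2 * r → Hs φ r

/-- **HRS** (residues).  Proof: `Form.restrict_kind`, `finrank_perp2`, `(resForm_isRes φ hv hw).gen_finrank`.  Second part: a generator
`U` containing `v`: `W0 = U.comap ι` is totally singular of dimension `r` (as in the proof of `IsRes.cone`: `U ⊓ ker (φ.f w)` has dimension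
`r` and is the image of `W0`), so it is a generator (`Polar.gen_of_finrank`), and `lift W0 ≤ U` has the same dimension. -/
def StHRS : Prop :=
  ∀ {F V : Type} [Field F] [AddCommGroup V] [Module F V] [FiniteDimensional F V] (φ : Form F V) (r : ℕ),
  Hs φ (r + 1) → ∀ (v w : V) (hv : φ.Sing v) (hw : φ.f w v ≠ 0), Hs (resForm φ hv hw) r ∧
  ∀ U, φ.toPolar.Gen U → v ∈ U → ∃ W0, (resForm φ hv hw).toPolar.Gen W0 ∧
    IsRes.lift (perp2 φ v w).subtype v W0 = U

/-- **HNB** (neighbours; hypothesis HF).  Proof.  `U^⊥ = U` (`U` is totally singular of dimension `r` in dimension `2 r`;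
nondegeneracy) and every functional on `U` is the restriction of some `φ.f x`.  Let `G ≠ 0` be a functional on `U`, `E` its kernel,
`u₁ ∈ U` with `G u₁ = 1`.  Choose `w` with `φ.f w u = G u` on `U`; replacing `w` by `w + c u₁` changes `f w w` by
`c + c ^ 2` (`f (c u₁) w = c ^ 2 (f w u₁) ^ 2 = c ^ 2`), so we may assume `w` singular.  Put `nb (false, G) = E + ⟨w⟩`, `nb (true, G) = E + ⟨w + u₁⟩` (`w + u₁` is singular:
`1 + 1 = 0`); they are totally singular of dimension `r`, hence generators, and `f (w + c u₁) u = G u` on `U`, which gives `inU` and `perp`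
(an element of `nb` outside `U` is `e + c w'`, `c ≠ 0`, and `f` of it on `u` is `c ^ 2 G u`).  `out`: let `x` be singular, `x ∉ U`;
`φ.f x` is not zero on `U` (`Gen.not_le`), so it is a multiple of `G = p.2.rep` for exactly one point of the dual (by `inU`/`perp` any
`p` with `x ∈ nb p` has this `p.2`); scaling, `f x u = G u` on `U`; then `x - w ∈ U^⊥ = U`, `x = w + u`, singular, so
`G u + (G u) ^ 2 = 0`, `G u ∈ {0, 1}`, i.e. `x ∈ w + E` or `x ∈ w + u₁ + E`; not both, since `u₁ ∉ E` (if `c (w) = w + u₁ + e` then `c = 1`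
by applying `f` to `u₁`). -/
def StHNB : Prop :=
  ∀ {F V : Type} [Field F] [AddCommGroup V] [Module F V] [FiniteDimensional F V] (φ : Form F V) (r : ℕ),
  Hs φ r → ∀ U, φ.toPolar.Gen U → Nonempty (Nb φ.toPolar U Bool)

/-- **CON** (connectedness).  Proof: let `U ≠ W` be generators containing `A`; strong induction on `r - dim (U ⊓ W)`.  Take
`x ∈ W`, `x ∉ U`, `E = U ⊓ ker (φ.f x)` (dimension `r - 1`, `Polar.finrank_inf_ker`, `Gen.not_le`), `U' = E ⊔ span {x}` is totally
singular (`TS.sup_span`) of dimension `r`, so a generator; `A ≤ U ⊓ W ≤ E`, `U ⊓ U' = E`, and `U' ⊓ W` contains `U ⊓ W` and `x`.  So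
`Q U → Q U'` by the hypothesis, and `Q U' → Q W` by induction. -/
def StCON : Prop :=
  ∀ {F V : Type} [Field F] [AddCommGroup V] [Module F V] [FiniteDimensional F V] (φ : Form F V) (r : ℕ),
  Hs φ r → ∀ (A : Submodule F V) (Q : Submodule F V → Prop),
  (∀ U W, φ.toPolar.Gen U → φ.toPolar.Gen W → A ≤ U → A ≤ W → finrank F (U ⊓ W : Submodule F V) + 1 = r → Q U → Q W) →
  ∀ U W, φ.toPolar.Gen U → φ.toPolar.Gen W → A ≤ U → A ≤ W → Q U → Q W

/-- **NBX** (adjacent generators are neighbours).  Proof: `W ≠ U`, so there is `x ∈ W`, `x ∉ U`; let `p` be the unique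
index with `x ∈ N.nb p` (`out`).  `U ⊓ W` is perpendicular to `x`, so contained in the kernel of `p.2.rep` (`perp`), which has dimension
`r - 1` too; so `N.nb p` and `W` both contain `U ⊓ W` and `x`, of total dimension `r`: they are equal.  Second part: `p.2.rep u = 0 ↔ u ∈ N.nb p` (`inU`), the
intersection is the image of the kernel of `p.2.rep`, of dimension `r - 1`. -/
def StNBX : Prop :=
  ∀ {F V : Type} [Field F] [AddCommGroup V] [Module F V] [Finite F] [FiniteDimensional F V] (φ : Form F V) (r : ℕ),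
  Hs φ r → ∀ U, φ.toPolar.Gen U → ∀ N : Nb φ.toPolar U Bool,
  (∀ W, φ.toPolar.Gen W → finrank F (U ⊓ W : Submodule F V) + 1 = r → ∃ p, N.nb p = W) ∧
  (∀ p, finrank F (U ⊓ N.nb p : Submodule F V) + 1 = r)

/-- **THR** (three generators on a subspace `E` of codimension one; hypothesis HNB).  Proof: let `U ⊇ E` be a generator
(`exists_gen_ge`), `N` its neighbours, `G` the point of the dual of `U` with kernel `E` (a functional on `U` with kernel `E.comap U.subtype`).
Take `U`, `N.nb (false, G)`, `N.nb (true, G)`.  A generator `W ⊇ E`, `W ≠ U`: `x ∈ W`, `x ∉ U` is in exactly one `N.nb p`, `E` is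
perpendicular to `x`, so `p.2.rep` vanishes on `E` (`perp`), `p.2 = G` and `W`, `N.nb p` both equal `E ⊔ span {x}` by dimension.  The two neighbours meet in
`E` only: a common `x ∉ E` would be outside `U` (`inU`), contradicting the uniqueness in `out`.
Last part (any such triple): a singular `y` perpendicular to `E` lies in `E` or `E ⊔ span {y}` (totally singular of dimension `r`) is one of the three generators; every point of `E` lies in
all three, every other singular point perpendicular to `E` in exactly one (`i01`, `i02`, `i12`), and the points of the `U_i` are perpendicular to `E`. -/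
def StTHR : Prop :=
  ∀ {F V : Type} [Field F] [AddCommGroup V] [Module F V] [Finite F] [Finite V] [FiniteDimensional F V] (φ : Form F V) (r : ℕ),
  Hs φ r → ∀ E, φ.toPolar.TS E → finrank F E + 1 = r → (∃ U0 U1 U2, Thr φ.toPolar E U0 U1 U2) ∧
    ∀ U0 U1 U2, Thr φ.toPolar E U0 U1 U2 → ∀ f : ℙ F V → ℤ, Sup φ.toPolar f →
      np φ.toPolar f E = tf f U0 + tf f U1 + tf f U2 - 2 * tf f E

/-- **SUM** (sums over neighbours of a function `f` on the points, for any polar geometry over a field with four elements).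
Proof: as in Pool.Agent.Helper53.PB.Weight (`sumA`, `sumB`, `card_eval_one`, `card_eval_two`, `card_not`) with `∑ y, f y * _` in place of `∑ y ∈ T, _`:
exchange the sums; a point `y` (we may assume it singular, by `Sup`) outside `U` lies in exactly one neighbour `p` and
`N.nb p ∩ U` is `ker (f y) ∩ U`; a point `y` of `U` lies in `2 * geo 4 n` neighbours (`n + 1 = dim U`).  (3): `y ∉ U` is in exactly one neighbour, which contains
`L` iff `L ≤ ker (P.f y)`; `y ∈ U`, `y ∉ L`: the functionals on `U` vanishing on `L + y`: `2 * geo 4 n` neighbours; `y ∈ L`: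
`2 * geo 4 (n + 1) = 2 * geo 4 n + 2 * 4 ^ n`; and all points of `U` are perpendicular to `L`. -/
def StSUM : Prop :=
  ∀ {F V : Type} [Field F] [AddCommGroup V] [Module F V] [Finite F] [Finite V] [FiniteDimensional F V] (P : Polar F V)
    (U : Submodule F V) (N : Nb P U Bool) (f : ℙ F V → ℤ), Nat.card F = 4 → P.TS U → Sup P f →
  (∀ n, finrank F U = n + 1 → ∑ p, tf f (N.nb p) + tf f U = ∑ y, f y + tf f U * (2 * geo 4 n : ℕ) ∧
    Fintype.card (Bool × ℙ F (Dual F U)) = 2 * geo 4 (n + 1)) ∧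
  (∀ n, finrank F U = n + 2 → ∀ X : ℙ F V, X.rep ∈ U →
    ∑ p ∈ Finset.univ.filter (fun p => X.rep ∈ N.nb p), tf f (N.nb p) + tf f U
      = nf P f X + tf f U * (2 * geo 4 n : ℕ) + f X * (2 * 4 ^ n : ℕ) ∧
    (Finset.univ.filter (fun p => X.rep ∈ N.nb p)).card = 2 * geo 4 (n + 1)) ∧
  (∀ n, finrank F U = n + 3 → ∀ L : Submodule F V, L ≤ U → finrank F L = 2 →
    ∑ p ∈ Finset.univ.filter (fun p => L ≤ N.nb p), tf f (N.nb p) + tf f U
      = np P f L + tf f U * (2 * geo 4 n : ℕ) + tf f L * (2 * 4 ^ n : ℕ) ∧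
    (Finset.univ.filter (fun p => L ≤ N.nb p)).card = 2 * geo 4 (n + 1))

/-- **DCT** (double counting).  Proof: exchange the sums; the point `y` is perpendicular to the points of
`H ⊓ ker (P.f y)`, of dimension `k + 1` if `H ≤ ker`, else `k` (`Polar.finrank_inf_ker`, `card_pts`, `geo_succ'`). -/
def StDCT : Prop :=
  ∀ {F V : Type} [Field F] [AddCommGroup V] [Module F V] [Finite F] [Finite V] [FiniteDimensional F V] (P : Polar F V)
    (f : ℙ F V → ℤ) (H : Submodule F V) (k : ℕ), Nat.card F = 4 → finrank F H = k + 1 →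
  ∑ X ∈ pts H, nf P f X = (geo 4 k : ℤ) * ∑ y, f y + 4 ^ k * np P f H

/-- **RTH** (formulas in rank three; hypotheses SUM, DCT, THR).  With `e(W) = tf f W - 1`, `r = ∑ f - 33`.
(1), (2): SUM with `n = 2`, `n = 1` and the numbers `42`, `10` of summands.  (3): DCT (`k = 2`), `np f U = tf f U` (a singular point perpendicular to
the generator `U` lies in `U`), `∑_X f X = tf f U`, `21` points: `5 tot + 16 t - 9 * 21 + 8 t = 5 r + 24 e`.  (4): DCT (`k = 1`):
`∑ nf = tot + 4 np f L`, `np f L = ∑ tf f U_i - 2 tf f L` (THR), `5` points: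
`tot + 4 (3 + ∑ e_i) - 8 tf f L - 45 + 8 tf f L = r + 4 ∑ e_i`. -/
def StRTH : Prop :=
  ∀ {F V : Type} [Field F] [AddCommGroup V] [Module F V] [Finite F] [Finite V] [FiniteDimensional F V] (φ : Form F V)
    (f : ℙ F V → ℤ), Hs φ 3 → Sup φ.toPolar f →
  (∀ U, φ.toPolar.Gen U → ∀ N : Nb φ.toPolar U Bool,
    (∑ p, (tf f (N.nb p) - 1) = (∑ y, f y - 33) + 9 * (tf f U - 1) ∧ Fintype.card (Bool × ℙ F (Dual F U)) = 42) ∧
    (∀ X : ℙ F V, X.rep ∈ U → ∑ p ∈ Finset.univ.filter (fun p => X.rep ∈ N.nb p), (tf f (N.nb p) - 1)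
      = s3 φ.toPolar f X + (tf f U - 1) ∧ (Finset.univ.filter (fun p => X.rep ∈ N.nb p)).card = 10)) ∧
  (∀ U, φ.toPolar.Gen U → ∑ X ∈ pts U, s3 φ.toPolar f X = 5 * (∑ y, f y - 33) + 24 * (tf f U - 1)) ∧
  (∀ L U0 U1 U2, φ.toPolar.TS L → finrank F L = 2 → Thr φ.toPolar L U0 U1 U2 →
    ∑ X ∈ pts L, s3 φ.toPolar f X = (∑ y, f y - 33) + 4 * ((tf f U0 - 1) + (tf f U1 - 1) + (tf f U2 - 1)))

/-- **RFO** (formulas in rank four; hypotheses SUM, DCT).  (1), (2), (3): SUM with `n = 3, 2, 1` and the numbers `170`,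
`42`, `10` of summands.  (4): DCT (`k = 1`), `5` points: `tot + 4 np f L - 165 + 32 tf f L`. -/
def StRFO : Prop :=
  ∀ {F V : Type} [Field F] [AddCommGroup V] [Module F V] [Finite F] [Finite V] [FiniteDimensional F V] (φ : Form F V)
    (f : ℙ F V → ℤ), Hs φ 4 → Sup φ.toPolar f →
  (∀ U, φ.toPolar.Gen U → ∀ N : Nb φ.toPolar U Bool,
    (∑ p, (tf f (N.nb p) - 1) = (∑ y, f y - 129) + 41 * (tf f U - 1) ∧ Fintype.card (Bool × ℙ F (Dual F U)) = 170) ∧
    (∀ X : ℙ F V, X.rep ∈ U → ∑ p ∈ Finset.univ.filter (fun p => X.rep ∈ N.nb p), (tf f (N.nb p) - 1)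
      = s4 φ.toPolar f X + 9 * (tf f U - 1) ∧ (Finset.univ.filter (fun p => X.rep ∈ N.nb p)).card = 42) ∧
    (∀ L : Submodule F V, L ≤ U → finrank F L = 2 →
      ∑ p ∈ Finset.univ.filter (fun p => L ≤ N.nb p), (tf f (N.nb p) - 1)
        = (np φ.toPolar f L + 8 * tf f L - 9) + (tf f U - 1) ∧
      (Finset.univ.filter (fun p => L ≤ N.nb p)).card = 10)) ∧
  (∀ L : Submodule F V, finrank F L = 2 →
    ∑ X ∈ pts L, s4 φ.toPolar f X = (∑ y, f y - 129) - 36 + 4 * (np φ.toPolar f L + 8 * tf f L))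

/-- **LBD** (lower bounds; hypotheses HNB, RTH, RFO, CON, NBX).  Proof: let `U` be a generator with smallest `e(U) = tf f U - 1 =: m ≥ 0`
(there are finitely many subspaces; generators exist).  Rank three: `42 m ≤ ∑_p e = (∑ f - 33) + 9 m`, so `∑ f ≥ 33`, and
`∑ f = 33` forces `m = 0`.  If `∑ f = 33` and `e(U) = 0` then all `e(N.nb p) = 0` (sum of nonnegative numbers), i.e. (NBX) all
adjacent generators have `e = 0`; by CON (`A = ⊥`) all generators.  Rank four: the same with `170`, `129`, `41`. -/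
def StLBD : Prop :=
  ∀ {F V : Type} [Field F] [AddCommGroup V] [Module F V] [Finite F] [Finite V] [FiniteDimensional F V] (φ : Form F V)
    (f : ℙ F V → ℤ), Sup φ.toPolar f → (∀ U, φ.toPolar.Gen U → 1 ≤ tf f U) →
  (Hs φ 3 → 33 ≤ ∑ y, f y ∧ (∑ y, f y = 33 → ∀ U, φ.toPolar.Gen U → tf f U = 1)) ∧
  (Hs φ 4 → 129 ≤ ∑ y, f y ∧ (∑ y, f y = 129 → ∀ U, φ.toPolar.Gen U → tf f U = 1))

/-- **HVY** (a heavy point; hypotheses HNB, RTH, CON, NBX, THR).  Proof.  Let `r = ∑ f - 33 ∈ {1, 2}`, `e(U) = tf f U - 1 ≥ 0`, and suppose that every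
singular point lies on a generator with `e = 0`.  (a) For a singular `X` take `U ∋ X` with `e(U) = 0`:
`s3 X = ∑_{p ∋ X} e(N.nb p)`, so `0 ≤ s3 X ≤ ∑_p e(N.nb p) = r`.  (b) Some generator `π` has `e(π) ≥ 1` (else the sum over the neighbours gives `0 = r`).
(c) If `e(π) ≥ 1` and `X ∈ π` then `s3 X ≥ 1`: otherwise `s3 X = 0` and for a generator `U ∋ X` with `e(U) = 0` all neighbours on `X` have
`e = 0`; by CON (`A = span {X.rep}`, NBX) all generators on `X` have `e = 0`, contradiction.  (d) By RTH (3)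
`5 r + 24 e(π) = ∑_{X ∈ π} s3 X ≤ 21 r`, so `24 e(π) ≤ 16 r`: `r = 2`, `e(π) = 1`, the sum is `34 < 42`, so some `x ∈ π` has `s3 x = 1` (by (c)).
(e) `∑_{p ∋ x} e(N.nb p) = 1 + 1 = 2` for the neighbours of `π`, so some neighbour `W ∋ x` has `e(W) ≥ 1`; `m = π ⊓ W` is a
line on `x`.  RTH (4) with THR: `∑_{X ∈ m} s3 X ≥ 2 + 4 * 2 = 10` (`π` and `W` are two of the three generators on `m`), but
it is at most `1 + 4 * 2 = 9`. -/
def StHVY : Prop :=
  ∀ {F V : Type} [Field F] [AddCommGroup V] [Module F V] [Finite F] [Finite V] [FiniteDimensional F V] (φ : Form F V)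
    (f : ℙ F V → ℤ), Hs φ 3 → Sup φ.toPolar f → (∀ U, φ.toPolar.Gen U → 1 ≤ tf f U) →
  ∑ y, f y = 34 ∨ ∑ y, f y = 35 →
  ∃ X : ℙ F V, φ.Sing X.rep ∧ ∀ U, φ.toPolar.Gen U → X.rep ∈ U → 2 ≤ tf f U

end Pool.Agent.Helper45.U4
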