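import Pool.Agent.Helper45.U4.St1
import Pool.Agent.Helper45.U4.Ini

/-!
# Project U4 (MP_a1f43d_co): statements, second part (rank three), with complete proofs

Codes: `n < 4096` stands for the vector `vv ω b n = ∑ i, (bit i of n + bit (i+6) of n * ω) • b i` in a frame `b : Fin 6 → V`
(`b 0, b 1` hyperbolic pair, `b 2, ..., b 5` orthonormal).  See Code.lean, OvCode.lean, Defs2.lean.
-/

set_option autoImplicit false

open Module Classical
open scoped LinearAlgebra.Projectivization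

namespace Pool.Agent.Helper45.U4

open Pool.Agent.Helper53.PB

/-- **VEC** (codes of vectors).  Proof.  (1) `Nat.testBit_xor` and `c + c = 0`.  (2) for `n < 4096` write `n = a + 64 b`, `a, b < 64`;
`wm n = b + 64 (a xor b)`: bit `i` of `wm n` is bit `i + 6` of `n`, bit `i + 6` of `wm n` is the xor of bits `i` and `i + 6` of
`n` (`i < 6`), and `ω * (x + y ω) = y + (x + y) ω`.  (3) bounds (`Nat.xor_lt_two_pow`, etc.).  (4) linear independence, the coefficient
`x + y ω` with bits `x, y` is `0` only for `x = y = 0`; a number `< 4096` all whose `12` bits vanish is `0`.  (5) every element of `F`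
is `x + y ω` with bits `x, y`; `n = ∑ i, x_i 2 ^ i + y_i 2 ^ (i + 6)` (`Nat.ofBits` or by hand).  (6) let `n = a + 64 b`; direct. -/
def StVEC : Prop :=
  ∀ {F V : Type} [Field F] [AddCommGroup V] [Module F V] (ω : F) (b : Fin 6 → V), Om ω →
  (∀ m n : ℕ, vv ω b (m ^^^ n) = vv ω b m + vv ω b n) ∧
  (∀ n : ℕ, n < 4096 → vv ω b (wm n) = ω • vv ω b n ∧ wm n < 4096) ∧
  (∀ m n : ℕ, m < 4096 → n < 4096 → m ^^^ n < 4096) ∧
  (LinearIndependent F b → ∀ n : ℕ, n < 4096 → vv ω b n = 0 → n = 0) ∧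
  (∀ v ∈ Submodule.span F (Set.range b), ∃ n : ℕ, n < 4096 ∧ vv ω b n = v) ∧
  (vv ω b 0 = 0 ∧ vv ω b 1 = b 0 ∧ vv ω b 64 = ω • b 0 ∧ vv ω b 65 = (ω + 1) • b 0 ∧ vv ω b 2 = b 1 ∧
    vv ω b 128 = ω • b 1 ∧ vv ω b 130 = (ω + 1) • b 1)

/-- **ORT** (orthogonality of codes; hypotheses HF, VEC).  Proof.  For `x < 64`: `par x` is `0` or `1` and is the parity of the number of ones of `x`, so
`(par x : F) = ∑ i : Fin 6, if x.testBit i then 1 else 0` (`64` cases, or `decide` on `par x = (∑ i, bit i of x) % 2`); bits of `swp x`: bit `0` and bit `1` are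
exchanged (`decide` over `x < 64`).  Write `m = a + 64 b`, `n = n₀ + 64 n₁`, `c = swp (n₀ xor n₁)`, `d = swp n₁`; `m_i = a_i + b_i ω`,
`n_i ^ 2 = (n₀_i + n₁_i) + n₁_i ω`, so `c_i + d_i ω = n_{s i} ^ 2`, `s` = exchange of `0` and `1`.  With `α`, `β` the two values of `par` in the definition of
`orth`: `α + β ω = ∑ i, (a_i c_i + b_i d_i) + (a_i d_i + b_i c_i + b_i d_i) ω = ∑ i, m_i * n_{s i} ^ 2`
(`ω ^ 2 = ω + 1`; `(x xor y)_i = x_i + y_i`, `(x &&& y)_i = x_i y_i` in `F`).  Its square is `∑ i, m_i ^ 2 * n_{s i} = φ.f (vv m) (vv n)` by the Gram matrix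
(`n_i ^ 4 = n_i`).  `α, β ∈ {0, 1}`, so `α + β ω = 0` iff `α = β = 0`. -/
def StORT : Prop :=
  ∀ {F V : Type} [Field F] [AddCommGroup V] [Module F V] (φ : Form F V) (ω : F) (b : Fin 6 → V),
  φ.kind = .hermitian → Nat.card F = 4 → Om ω → Fr φ b → ∀ m n : ℕ, m < 4096 → n < 4096 →
  (orth m n = true ↔ φ.f (vv ω b m) (vv ω b n) = 0)

/-- **FRM** (frames; hypotheses HF, ONB, VEC, ORT).  Proof.  (1) `φ` restricted to `perp2 φ x1 x2` (`resForm`, dimension `4`: `finrank_perp2`)
has an orthonormal basis (ONB).  (2) the Gram matrix of the new system: `e_i` are orthogonal to each other, nonsingular (`!orth e e`: `f ≠ 0`, so `f = 1` by HF), and perpendicular to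
`b 0`, `b 1` because their coordinates `0, 1` vanish (`e &&& 195 = 0`: bits `0, 1, 6, 7`); a system with Gram matrix `gm` is linearly independent (apply `f` to a relation) and spans by
dimension.  `vv b' n` for `n &&& 195 = 0` is `∑_{i = 2..5} n_i • vv b e_{i-2}` and `img` is the xor of the corresponding multiples (VEC).
(3) `b' 0 = b 0`, `b' (i+2) = b (i+2) + μ_i • b 0`, `b' 1 = b 1 + ∑ ν_i • b (i+2) + κ • b 0` with
`ν_i = (μ_i)²` (so that `f (b' 1) (b' (i+2)) = μ_i f (b 1) (b 0) + ν_i ^ 2 = μ_i + μ_i ^ 4 = 0`) and `κ` with `κ + κ ^ 2 = ∑ ν_i ^ 3`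
(`f (b' 1) (b' 1)`; the sum lies in `{0, 1}`, so `κ = 0` or `κ = ω`). -/
def StFRM : Prop :=
  ∀ {F V : Type} [Field F] [AddCommGroup V] [Module F V] [FiniteDimensional F V] (φ : Form F V), Hs φ 3 →
  (∀ x1 x2 : V, φ.Sing x1 → φ.Sing x2 → φ.f x1 x2 = 1 → ∃ b, Fr φ b ∧ b 0 = x1 ∧ b 1 = x2) ∧
  (∀ (ω : F), Om ω → ∀ (b : Fin 6 → V), Fr φ b → ∀ e0 e1 e2 e3 : ℕ, okF e0 e1 e2 e3 = true →
    Fr φ ![b 0, b 1, vv ω b e0, vv ω b e1, vv ω b e2, vv ω b e3] ∧
    ∀ n : ℕ, n < 4096 → n &&& 195 = 0 →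
      vv ω ![b 0, b 1, vv ω b e0, vv ω b e1, vv ω b e2, vv ω b e3] n = vv ω b (img e0 e1 e2 e3 n)) ∧
  (∀ (b : Fin 6 → V), Fr φ b → ∀ m0 m1 m2 m3 : F, ∃ b', Fr φ b' ∧ b' 0 = b 0 ∧ b' 2 = b 2 + m0 • b 0 ∧
    b' 3 = b 3 + m1 • b 0 ∧ b' 4 = b 4 + m2 • b 0 ∧ b' 5 = b 5 + m3 • b 0)

/-- **AVO** (avoiding two points; hypotheses HNB, THR).  Proof.  Let `U` be a generator on `p` (dimension `3`).  Choose a line `L ≤ U` on `p` which does not
contain `X`, `Y`: among the `5` lines of `U` on `p` at most one contains `X` (that is `line p X`) and at most one contains `Y`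
(e.g. take `a, b` with `U = span {p, a, b}`; the lines `⟨p, a⟩`, `⟨p, b⟩`, `⟨p, a + b⟩` are different, so one contains neither).  Let `U0, U1, U2` be the three generators on `L` (THR): two of
them meet in `L` only, so at most one contains `X` and at most one contains `Y`. -/
def StAVO : Prop :=
  ∀ {F V : Type} [Field F] [AddCommGroup V] [Module F V] [Finite F] [Finite V] [FiniteDimensional F V] (φ : Form F V),
  Hs φ 3 → ∀ p X Y : ℙ F V, φ.Sing p.rep → X ≠ p → Y ≠ p →
  ∃ U, φ.toPolar.Gen U ∧ p.rep ∈ U ∧ X.rep ∉ U ∧ Y.rep ∉ U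

/-- **GEO** (geometry of the types; hypotheses HNB, THR, RTH, AVO).  Let `D` be `Ty φ f t X1 X2`; no generator contains `X1` and `X2`.
(1) clear from `D.tf` (`tf f U ≥ 1`; `U` is a generator by `gen_of_finrank`).
(2) `L = line p q` is totally singular of dimension `2`.  If it contains neither `X1` (`t ≠ 0`) nor `X2` (`t = 2`), then at most one of the three generators on `L`
(THR) contains `X1` and at most one contains `X2`, so for the third one `1 = tf f U ≥ f p + f q ≥ 2`.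
(3) Let `f p > 0` and (AVO) `U ∋ p` a generator not containing `X1`, `X2` (`p ≠ X1` since `f X1 = 0`; if `t < 2` use AVO with `X1, X1`).  Then `tf f U = 1` and RTH (2):
`nf p - 9 + 8 f p = ∑_{W ∋ p} (tf f W - 1)` over the neighbours `W` of `U`, which is the number of neighbours on `p` containing `X1` (`t ≠ 0`) plus the number of those
containing `X2` (`t = 2`).  `X1` lies in exactly one neighbour (`Nb.out`), and this one contains `p` iff `p ⊥ X1` (`Nb.inU`, `Nb.perp`).  So
`nf p + 8 f p = 9 + [t ≠ 0, p ⊥ X1] + [t = 2, p ⊥ X2]`, and `nf p ≥ f p` gives `f p = 1` and `nf p = 1 + [..] + [..]`.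
Let `t ≠ 0`, `p ⊥ X1`, and suppose that no `q ≠ p` with `f q > 0` lies on `line X1 p`.  By (2) all `q ≠ p`, `q ⊥ p`, `f q > 0` have `X2 ∈ line p q`,
i.e. `q ∈ line X2 p`, and there is one (`nf p ≥ 2`), so `t = 2`, `p ⊥ X2`, `nf p = 3`: the line `line X2 p` (totally singular) has total weight `3`, but it lies in a generator `U`,
`X2 ∈ U`, `X1 ∉ U`, `tf f U = 2`.  Contradiction.  The same for `X2`.
(4) `line X1 p` (`p ⊥ X1`) is totally singular, a generator `U` containing it has `tf f U ≤ 2` (it does not contain `X2`), but `f p + f q + f r ≥ 3`.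
The same for `X2` if `t = 2`. -/
def StGEO : Prop :=
  ∀ {F V : Type} [Field F] [AddCommGroup V] [Module F V] [Finite F] [Finite V] [FiniteDimensional F V] (φ : Form F V)
    (f : ℙ F V → ℤ) (t : ℕ) (X1 X2 : ℙ F V), Ty φ f t X1 X2 →
  (∀ U, φ.toPolar.TS U → finrank F U = 3 → ∃ y : ℙ F V, y.rep ∈ U ∧ 0 < f y) ∧
  (∀ p q : ℙ F V, p ≠ q → 0 < f p → 0 < f q → φ.f p.rep q.rep = 0 →
    (t ≠ 0 ∧ X1.rep ∈ line p q) ∨ (t = 2 ∧ X2.rep ∈ line p q)) ∧
  (∀ p : ℙ F V, 0 < f p →
    (t ≠ 0 → φ.f X1.rep p.rep = 0 → ∃ q, q ≠ p ∧ 0 < f q ∧ q.rep ∈ line X1 p) ∧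
    (t = 2 → φ.f X2.rep p.rep = 0 → ∃ q, q ≠ p ∧ 0 < f q ∧ q.rep ∈ line X2 p)) ∧
  (∀ p q r : ℙ F V, p ≠ q → p ≠ r → q ≠ r → 0 < f p → 0 < f q → 0 < f r →
    (φ.f X1.rep p.rep = 0 → q.rep ∈ line X1 p → r.rep ∈ line X1 p → False) ∧
    (t = 2 → φ.f X2.rep p.rep = 0 → q.rep ∈ line X2 p → r.rep ∈ line X2 p → False))

/-- **OVC** (the lines through `X1` which carry points of `f` form an ovoid of `H(3,4)`; hypotheses HF, VEC, ORT, GEO).  Proof.
`b 0` spans `X1`.  A code `n` with `n &&& 195 = 0` has coordinates `0, 1` zero, so `vv n ⊥ b 0`.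
(line) `okL a c`: `b 0, vv a, vv c` span a totally singular subspace of dimension `3` (`a, c` and their combinations are nonzero codes: `combo2 a c` has no `0`, which gives the independence),
so it contains a point `y` with `f y > 0` (GEO (1)); `y ≠ X1` (`f X1 = 0`), so after scaling `y` is spanned by `vv x + c' • b 0` with `x ∈ combo2 a c`.
(conf) `p, q` in `InO`, `conflict 0 p q`: `orth p q` and `p xor q`, `p xor wm q`, `p xor q xor wm q` are not `0`, so `vv p`, `vv q` are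
independent (`p, q ≠ 0`).  The points `P = ⟨vv p + c b 0⟩`, `Q = ⟨vv q + c' b 0⟩` are different, perpendicular, `f > 0`, so by GEO (2)
`X1` or `X2` is on the line `P Q`; `X1`: impossible because `vv p`, `vv q`, `b 0` are independent; `X2`: then `X2 ⊥ X1` (as `P, Q ⊥ X1`), contradiction.
(scal) multiply by `ω`, `ω + 1` (codes `wm p`, `p xor wm p`; `wm` preserves `n &&& 195 = 0`). -/
def StOVC : Prop :=
  ∀ {F V : Type} [Field F] [AddCommGroup V] [Module F V] [Finite F] [Finite V] [FiniteDimensional F V] (φ : Form F V)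
    (f : ℙ F V → ℤ) (t : ℕ) (X1 X2 : ℙ F V), Ty φ f t X1 X2 → ∀ (ω : F) (b : Fin 6 → V), Om ω → Fr φ b →
  b 0 ∈ Submodule.span F {X1.rep} → Ov (InO ω b f)

/-- **CFG** (the rules of the search hold; hypotheses HF, VEC, ORT, GEO, OVC; `ini`, `oAB` of Ini.lean).  Proof.  `b 0` spans `X1`; `b 1` spans `X2` if `t = 2`.
(plane) `okP a b c`: totally singular of dimension `3` (independence because `combos a b c` has no `0`), GEO (1), normalise the first nonzero coefficient to `1`.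
(line) `InO y`: `0 < f` on `vv y + c • b 0`, `c ∈ {0, 1, ω, ω + 1}`, codes `y`, `y xor 1`, `y xor 64`, `y xor 65`.
(pair) by (partner) (`InO y`, `orth 1 y` as `y &&& 195 = 0`) there is a second point on the line `X1 y`; it is not `X1`, so it is one of the other three codes.
(partner) `heavy 0 = 1` is the code of `b 0`, `heavy 1 = 2` of `b 1`; GEO (3): `q ≠ p` on the line of `p` and `X_h`, `q ≠ X_h` (`f X_h = 0`), so `q` is spanned by
`vv p + c • b_h`, `c ≠ 0`, with code `p xor h`, `p xor wm h` or `p xor h xor wm h`.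
(conf) `p, q ∈ In` perpendicular; `okv t` of the three combinations says that they are nonzero (so the points are different), and, if `t ≠ 0`, not multiples of `b 0`, if `t = 2` not multiples of
`b 1`; `p`, `q` themselves are not `X1` (`X2`) because `f` vanishes there; contradiction to GEO (2).
(three) `diffP`: three different points; coordinate `1` of `p, q, r` is zero and the parts `&&& 3900` (coordinates `2..5`) span the same point, so
`q, r ∈ line X1 p` and `p ⊥ X1`: GEO (4); or the same with coordinate `0` and `X2`, `t = 2`.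
(init) `sameP q 1`: `q` spans `X1`, `f X1 = 0`; `sameP q 2`, `t = 2`: `X2`; else `q &&& 130 = 0` (coordinate `1` zero) and `y = q &&& 3900` is not a multiple of an element of
`O`: if `y = 0` then `q` spans `X1`; else `InO y` (`vv q = vv y + c • b 0`), `y` is singular, so (`ini`) there is `z ∈ O` with `conflict 0 y z`, contradiction to `Ov.conf` (OVC). -/
def StCFG : Prop :=
  ∀ {F V : Type} [Field F] [AddCommGroup V] [Module F V] [Finite F] [Finite V] [FiniteDimensional F V] (φ : Form F V)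
    (f : ℙ F V → ℤ) (t : ℕ) (X1 X2 : ℙ F V), Ty φ f t X1 X2 → ∀ (ω : F) (b : Fin 6 → V), Om ω → Fr φ b →
  b 0 ∈ Submodule.span F {X1.rep} → (t = 2 → b 1 ∈ Submodule.span F {X2.rep}) →
  ∀ O B : List ℕ, (O = oA ∨ O = oB) → (∀ y ∈ O, InO ω b f y) → (∀ c ∈ B, InC ω b f c) → Cfg (InC ω b f) t O B

/-- **EXF** (no types; hypotheses HF, VEC, FRM, OVC, CFG).  Proof.  Let `x1 = X1.rep`, `x2` a multiple of `X2.rep` with `f x1 x2 = 1`; FRM (1) gives a frame
`b`, OVC and `ov_class` give `Good (InO ω b f) oA` or `Good (InO ω b f) oB`, i.e. codes `e0, ..., e3` with `okF` and `InO (img y)` for `y ∈ O`; FRM (2) gives the frame `b'`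
(`b' 0 = b 0`, `b' 1 = b 1`) with `InO ω b' f y` for all `y ∈ O` (`oAB` for the conditions on `y`).
`t = 2`: CFG with `B = []` and `chk2A`, `chk2B`, `cfg_false`.
`t ≤ 1`, `O = oA`: `24, 1032, 40 ∈ oA` are the codes of `e1 + e2`, `e1 + ω e2`, `e1 + e3` (`e_i = b' (i + 2)`); let `c1, c2, c3` be the scalars with `0 < f` on
`e1 + e2 + c1 b0`, `e1 + ω e2 + c2 b0`, `e1 + e3 + c3 b0`.  FRM (3) with `m1 + m2 = c1`, `m1 + ω m2 = c2`, `m1 + m3 = c3`, `m0 = 0`
(`m2 = (c1 + c2) / (1 + ω)`) gives a frame `b''` in which these points have the codes `24`, `1032`, `40`; `InO ω b'' f y` still holds (`vv b'' y - vv b' y` is a multiple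
of `b 0`, for `y &&& 195 = 0`).  So `B = bA` and `chk0A`, `chk1A` apply.  `O = oB`: the codes `12, 516, 20, 36` of `e0 + e1`, `e0 + ω e1`, `e0 + e2`,
`e0 + e3`; solve `m0 + m1 = c1`, `m0 + ω m1 = c2`, `m0 + m2 = c3`, `m0 + m3 = c4`; `B = bB`, `chk0B`, `chk1B`. -/
def StEXF : Prop :=
  ∀ {F V : Type} [Field F] [AddCommGroup V] [Module F V] [Finite F] [Finite V] [FiniteDimensional F V] (φ : Form F V)
    (f : ℙ F V → ℤ) (t : ℕ) (X1 X2 : ℙ F V), ¬ Ty φ f t X1 X2

/-- **EXC** (exclusion of the types; hypotheses HF, EXF).  Proof.  For a singular point `X` there is a singular `Y` not perpendicular to it (`exists_pair` gives `w` with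
`f w x ≠ 0`; `w + c x` is singular for a suitable `c`, as `f (w + c x) (w + c x) = f w w + a + a ^ 2`, `a = f w (c x)` arbitrary).
(1) `f ≥ 0` with `tf f U = 1` for all generators `U`: a generator has `21` points of total weight `1`, so it has a point `X1` with `f X1 = 0`; EXF with `t = 0`.
(2) `tf f U = 1 + [X1 ∈ U]`: if `f X1 = 0`: EXF with `t = 1`; if `f X1 ≥ 1` then `f - del X1` is as in (1) (`tf_sub`, `tf_del`).
(3) `tf f U = 1 + [X1 ∈ U] + [X2 ∈ U]`, `X1` not perpendicular to `X2`: if `f X1 ≥ 1` then `f - del X1` is as in (2) for `X2`; the same with `X2`; else EXF with `t = 2`. -/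
def StEXC : Prop :=
  ∀ {F V : Type} [Field F] [AddCommGroup V] [Module F V] [Finite F] [Finite V] [FiniteDimensional F V] (φ : Form F V)
    (f : ℙ F V → ℤ), Hs φ 3 → (∀ y, 0 ≤ f y) → Sup φ.toPolar f →
  (¬ ∀ U, φ.toPolar.Gen U → tf f U = 1) ∧
  (∀ X1 : ℙ F V, φ.Sing X1.rep → ¬ ∀ U, φ.toPolar.Gen U → tf f U = 1 + (if X1.rep ∈ U then 1 else 0)) ∧
  (∀ X1 X2 : ℙ F V, φ.Sing X1.rep → φ.Sing X2.rep → φ.f X1.rep X2.rep ≠ 0 →
    ¬ ∀ U, φ.toPolar.Gen U → tf f U = 1 + (if X1.rep ∈ U then 1 else 0) + (if X2.rep ∈ U then 1 else 0))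

/-- **LOW** (the lower bound in rank three; hypotheses LBD, HVY, EXC).  Proof.  `f = chi T`, `∑ f = |T|` (`sum_chi`), `tf f U ≥ 1` (`block_tf`).  LBD: `|T| ≥ 33`.
`|T| = 33`: `tf f U = 1` for all `U`: EXC (1).  `|T| = 34`: HVY gives `X` with `tf f U ≥ 2` for `U ∋ X`; `f - del X` has all
sums `≥ 1` and total `33`, so (LBD) all sums are `1`: `tf f U = 1 + [X ∈ U]`, EXC (2). -/
def StLOW : Prop :=
  ∀ {F V : Type} [Field F] [AddCommGroup V] [Module F V] [FiniteDimensional F V] (φ : Form F V), Hs φ 3 →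
  ∀ T : Finset (ℙ F V), φ.toPolar.Block T → 35 ≤ T.card

/-- **UPP** (a set of `35` points; hypotheses HF, ONB).  Proof.  `e 0, ..., e 5` an orthonormal basis, `A = ⟨e 0, e 1, e 2⟩`, `Π = ⟨e 3, e 4, e 5⟩`, `x1 = e 0 + e 1`.
The singular points of `Π` are the nine points `e i + c e j`, `3 ≤ i < j ≤ 5`, `c ≠ 0` (`∑ a_i ^ 3` is the number of nonzero coordinates mod `2`), the
same for `A`.  `T` = the `27` points `z + c x1`, `z` one of the nine, `c ≠ 0`, and the `8` singular points of `A` other than `x1` (all singular; at most `35` points as an image/union).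
Let `U` be a generator (`dim 3`).  (a) `x1 ∈ U`: `U ≤ x1^⊥` (dimension `5`), `⟨x1, Π⟩ ≤ x1^⊥` has dimension `4`, so `U ⊓ ⟨x1, Π⟩` has dimension `≥ 2` and contains `z + c x1`, `z ∈ Π`,
`z ≠ 0`; since `x1 ∈ U` also `z ∈ U` and `z + x1 ∈ U`, `z` singular; `z` is a multiple `a z₀` of one of the nine vectors, `z₀ + a⁻¹ x1` is in `T` and `U`.
(b) `x1 ∉ U` and `U ⊓ A ≠ 0`: a point of `U ⊓ A` is singular, in `A` and not `x1`.  (c) `U ⊓ A = 0`: the projection `U → Π` along `A` is injective, so bijective (`dim 3`); for `z ∈ Π` let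
`a z ∈ A` be the unique vector with `z + a z ∈ U`; `f (z + a z) (z + a z) = 0` gives `f z z = f (a z) (a z)`, and more generally `f (a z) (a z') = f z z'`, so `a` is linear and injective
(nondegeneracy of `Π`), hence bijective; take `z` with `a z = x1`: `z ≠ 0` is singular and `z + x1 ∈ U`; scale as in (a). -/
def StUPP : Prop :=
  ∀ {F V : Type} [Field F] [AddCommGroup V] [Module F V] [FiniteDimensional F V] (φ : Form F V), Hs φ 3 →
  ∃ T : Finset (ℙ F V), φ.toPolar.Block T ∧ T.card ≤ 35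

end Pool.Agent.Helper45.U4
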