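import Pool.Agent.Helper45.U4.St2

/-!
# Project U4 (MP_a1f43d_co): statements, third part (rank four, induction), with complete proofs
-/

set_option autoImplicit false

open Module Classical
open scoped LinearAlgebra.Projectivization

namespace Pool.Agent.Helper45.U4

open Pool.Agent.Helper53.PB

/-- **PSH** (push-forward to a residue).  `pu ι R.rep f Q` is the sum of `f` over the points other than `R` of the line spanned by `R.rep` and `ι Q.rep`.
Proof.  For `Q : ℙ F V0` put `l Q = span {R.rep} ⊔ span {ι Q.rep}`, of dimension `2`, contained in `ker (P.f R.rep)`.  Every `x ∈ ker (P.f R.rep)` that is not a multiple of `R.rep` is `ι u + c R.rep` with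
`u ≠ 0` unique up to adding nothing (`IsRes.proj`, `coef_zero`), so every point `y ≠ R` perpendicular to `R` lies on exactly one `l Q` (`Q` = the point of `u`), and on no other.
`y.rep = ι u + c R.rep` lies in `lift W0` iff `u ∈ W0` (`mem_lift`, `coef_zero`).  (1) if `Q` is nonsingular, all points of `l Q` other than `R` are nonsingular (`y = a ι Q + c R`, `a ≠ 0`; if `y` were singular then so is
`ι Q`, by `sing_add`, `sing_smul`).  (2) the points of `lift W0` are `R` and the points `≠ R` of the `l Q`, `Q ∈ pts W0`.  (3) the same with `ker (P.f R.rep)`, the range of `ι` plus `R` (or (2) with `W0 = ⊤`).  (5) the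
projection exists.  (6) `y.rep = ι u + c R.rep`.  (7) `ι Q.rep = c x + a R`, `ι Q'.rep = c' x' + a' R`: `P.f (ι Q.rep) (ι Q'.rep) = 0 ↔ P.f x.rep x'.rep = 0` as `R ⊥ x, x', R`
(`add_left`, `smul_left`, `IsRes.perp`). -/
def StPSH : Prop :=
  ∀ {F V V0 : Type} [Field F] [AddCommGroup V] [Module F V] [AddCommGroup V0] [Module F V0] [Finite F] [Finite V] [Finite V0]
    [FiniteDimensional F V] [FiniteDimensional F V0] (P0 : Polar F V0) (P : Polar F V) (ι : V0 →ₗ[F] V) (R : ℙ F V) (w : V),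
  IsRes P0 P ι R.rep w → ∀ f : ℙ F V → ℤ, Sup P f →
  Sup P0 (pu ι R.rep f) ∧
  (∀ W0 : Submodule F V0, tf (pu ι R.rep f) W0 + f R = tf f (IsRes.lift ι R.rep W0)) ∧
  (∑ Q, pu ι R.rep f Q + f R = nf P f R) ∧
  ((∀ y, 0 ≤ f y) → ∀ Q, 0 ≤ pu ι R.rep f Q) ∧
  (∀ x : ℙ F V, x ≠ R → P.f R.rep x.rep = 0 → ∃ Q, Pj ι R x Q) ∧
  (∀ (x : ℙ F V) (Q : ℙ F V0), P.f R.rep x.rep = 0 → Pj ι R x Q →
    (∀ W0 : Submodule F V0, x.rep ∈ IsRes.lift ι R.rep W0 ↔ Q.rep ∈ W0) ∧ (P.sing x.rep ↔ P0.sing Q.rep)) ∧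
  (∀ (x x' : ℙ F V) (Q Q' : ℙ F V0), P.f R.rep x.rep = 0 → P.f R.rep x'.rep = 0 → Pj ι R x Q → Pj ι R x' Q' →
    (P0.f Q.rep Q'.rep = 0 ↔ P.f x.rep x'.rep = 0))

/-- **GPG** (a lemma on ten planes in `PG(3,4)`).  `K` gives multiplicities to the planes (points `G` of the dual space) of the four-dimensional space `W`, total `10`;
`hs K x` = total multiplicity of the planes on `x`.  For a line `m` (dimension `2`) let `N m` = total multiplicity of the planes containing `m`; double counting: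
`∑_{x ∈ m} hs K x = 10 + 4 N m` (`*`) (a plane contains `1` or all `5` points of `m`).  Call `x ≠ z` normal.
(a) If `z ∉ m` (or if also `hs K z ≥ 2`) and `N m = 0` then all `x ∈ m` have `hs K x = 2`.
(b) Let `x` be normal and `hs K x ≥ 3`: all lines `m` on `x` not through `z` have `N m ≥ 1` by (a).  Choose a plane `G₀` on `x`, not on `z`, with `K G₀ = 0` (there are `16` planes on `x` not on `z`;
if all had `K ≥ 1` then `hs K x ≥ 16 ≥ 5`); the `5` lines of `G₀` on `x` are contained in planes with `K ≥ 1`, different planes for different lines (a plane `≠ G₀` meets `G₀` in one line): `hs K x ≥ 5`.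
(c) `hs K z ≥ 2`: otherwise at most one plane on `z` has `K ≥ 1`, so there is a line `m` on `z` with `N m = 0`; the four other points of `m` have values `2` or `≥ 5` with sum `10 - hs K z ∈ {9, 10}`: impossible.
(d) If `K G ≥ 1`: choose a plane `A` with `z ∉ A`, `K A = 0` (there are `64` planes not on `z`, at most `10` have `K ≥ 1`) and a line `m ≤ A` not contained in any plane with `K ≥ 1` (`21` lines in `A`, each plane `≠ A`
contains exactly one of them); `N m = 0`, `z ∉ m`, so all points of `m` have value `2`, and `m` meets `G` in a point. -/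
def StGPG : Prop :=
  ∀ {F W : Type} [Field F] [AddCommGroup W] [Module F W] [Finite F] [Finite W] [FiniteDimensional F W] [Finite (Dual F W)]
    (K : ℙ F (Dual F W) → ℕ) (z : ℙ F W), Nat.card F = 4 → finrank F W = 4 → ∑ G, K G = 10 →
  (∀ x : ℙ F W, x ≠ z → 2 ≤ hs K x.rep) →
  (∀ x : ℙ F W, x ≠ z → hs K x.rep ≠ 3 ∧ hs K x.rep ≠ 4) ∧ 2 ≤ hs K z.rep ∧
  ∀ G : ℙ F (Dual F W), 1 ≤ K G → ∃ x : ℙ F W, x ≠ z ∧ G.rep x.rep = 0 ∧ hs K x.rep = 2

/-- **MNB** (smallest sets in rank four; hypotheses HRS, LOW).  Proof.  (1) `R ∉ T` singular: `IsRes.project` with `resForm` (HRS) gives a set of size `≤ nn T R` meeting all generators of a space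
`Hs _ 3`.  (2) `Polar.exists_tangent`.  (3) let `T'` be a smallest set (`exists_min`), `|T'| ≤ |T| ≤ 139`; by `Polar.core` (`r = 3`, `m = 35`, `-35 mod 4 = 1`): `140 ≤ |T'| + 1`. -/
def StMNB : Prop :=
  ∀ {F V : Type} [Field F] [AddCommGroup V] [Module F V] [Finite F] [Finite V] [FiniteDimensional F V] (φ : Form F V),
  (∀ T, Mn φ T → (∀ R : ℙ F V, φ.Sing R.rep → R ∉ T → 35 ≤ φ.toPolar.nn T R) ∧
    (∀ z ∈ T, ∃ U, φ.toPolar.Gen U ∧ z.rep ∈ U ∧ tt T U = 1)) ∧
  (Hs φ 4 → ∀ T, φ.toPolar.Block T → T.card ≤ 139 → ∃ T', Mn φ T')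

/-- **TAN** (tangent generators; hypotheses HNB, NBX, RFO, GPG, MNB).  Proof.  Let `tt T U = 1`, `z` the point of `T` in `U`, `N` the neighbours of `U`, `f = chi T` (`∑ f = 139`, `tf f W = tt T W ≥ 1`),
`K G = (tt T (N.nb (false, G)) - 1) + (tt T (N.nb (true, G)) - 1)` (natural numbers).  RFO (1): `∑ K = 139 - 129 = 10`; RFO (2): for `X ∈ U`: `hs K X = s4 P f X` (`X ∈ N.nb p ↔ p.2.rep X = 0`), and for
`X ≠ z` (`X ∉ T`) `s4 P f X = nn T X - 33 ≥ 2` (MNB).  So GPG applies to `↥U` (points of `U` = points of `↥U`), and gives (a).  (b): `W = N.nb p` for some `p` (NBX), `K p.2 ≥ 1`, so GPG gives `x ≠ z` in the kernel of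
`p.2.rep`, i.e. in `U ⊓ W` (`inU`), with `hs K x = 2`. -/
def StTAN : Prop :=
  ∀ {F V : Type} [Field F] [AddCommGroup V] [Module F V] [Finite F] [Finite V] [FiniteDimensional F V] (φ : Form F V)
    (T : Finset (ℙ F V)), Mn φ T → ∀ U, φ.toPolar.Gen U → tt T U = 1 →
  (∀ R : ℙ F V, R.rep ∈ U → 2 ≤ s4 φ.toPolar (chi T) R ∧
    (R ∉ T → s4 φ.toPolar (chi T) R ≠ 3 ∧ s4 φ.toPolar (chi T) R ≠ 4)) ∧
  (∀ W, φ.toPolar.Gen W → finrank F (U ⊓ W : Submodule F V) = 3 → 2 ≤ tt T W →
    ∃ R : ℙ F V, R.rep ∈ U ∧ R.rep ∈ W ∧ R ∉ T ∧ s4 φ.toPolar (chi T) R = 2)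

/-- **HLN** (heavy lines; hypotheses HNB, RFO, HRS, HVY, PSH).  `f` has `tf f U ≥ 1` for all generators, `∑ f ≤ 139`, `R` singular with `f R = 0` and `s4 f R ∈ {1, 2}`; then there is a heavy singular point, i.e. a singular `Y` with
`tf f U ≥ 2` for all generators `U ∋ Y`.  Proof.  `w` with `f w R ≠ 0` (`exists_pair`), `φ₀ = resForm φ _ _` (`Hs φ₀ 3` by HRS), `g = pu ι R.rep f` on its points (PSH): `∑ g = nf f R = s4 f R + 33 ∈ {34, 35}`,
`tf g W0 = tf f (lift W0) ≥ 1`.  HVY: a singular point `Q` with `tf g W0 ≥ 2` for all generators `W0 ∋ Q`.  Let `L = span {R.rep} ⊔ span {ι Q.rep}` (`= lift (span {Q.rep})`, dimension `2`, totally singular).  Every generator `U ⊇ L`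
is `lift W0` with `Q ∈ W0` (HRS), so `tf f U ≥ 2`.  Let `U ⊇ L` be a generator with smallest `tf f U - 1 = m ≥ 1` among those containing `L`; RFO (3): `10 m ≤ (np f L + 8 tf f L - 9) + m`, so `np f L + 8 tf f L ≥ 18`,
and RFO (4): `∑_{X ∈ L} s4 f X ≥ r + 36`, `r = ∑ f - 129 ≤ 10`.  If no point of `L` other than `R` were heavy: each such `X` lies on a generator `U` with `tf f U = 1`, so (RFO (1), (2))
`s4 f X = ∑_{p ∋ X} (tf f (N.nb p) - 1) ≤ ∑_p (..) = r`, and the sum is at most `2 + 4 r < r + 36`. -/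
def StHLN : Prop :=
  ∀ {F V : Type} [Field F] [AddCommGroup V] [Module F V] [Finite F] [Finite V] [FiniteDimensional F V] (φ : Form F V)
    (f : ℙ F V → ℤ), Hs φ 4 → Sup φ.toPolar f → (∀ U, φ.toPolar.Gen U → 1 ≤ tf f U) → ∑ y, f y ≤ 139 →
  ∀ R : ℙ F V, φ.Sing R.rep → f R = 0 → 1 ≤ s4 φ.toPolar f R → s4 φ.toPolar f R ≤ 2 →
  ∃ Y : ℙ F V, φ.Sing Y.rep ∧ ∀ U, φ.toPolar.Gen U → Y.rep ∈ U → 2 ≤ tf f U

/-- **EXA** (the multiset `X`; hypotheses HNB, RFO, LBD, NBX, MNB, TAN, HLN).  Proof.  Consider the functions `X ≥ 0` with `Sup`, `tf X U ≤ tt T U - 1` for all generators `U` (`X = 0` is one).  For such `X`, `f = chi T - X` has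
`tf f U ≥ 1`, so by LBD `∑ f ≥ 129`, `∑ X ≤ 10`.  Take `X` with `∑ X` maximal.  If `∑ X = 10` then `∑ f = 129` and LBD gives `tf f U = 1`, i.e. `tt T U = 1 + tf X U`; for `z ∈ T` a tangent generator (MNB) `U ∋ z` gives
`tf X U = 0`, so `X z = 0`.  Suppose `∑ X < 10`.  Let `U` be a generator with `tt T U = 1` (MNB, `T` is not empty); `tf X U = 0`, so `X y = 0` for `y ∈ U`.  RFO (1) for `f`: `∑_p (tf f (N.nb p) - 1) = ∑ f - 129 > 0`, so some
neighbour `W = N.nb p` has `tf f W ≥ 2`, hence `tt T W ≥ 2`; `dim (U ⊓ W) = 3` (NBX).  TAN (b): `R ∈ U ⊓ W`, `R ∉ T`, `s4 (chi T) R = 2`.  `X R = 0`, `f R = 0`, `s4 f R = 2 - nf X R ≤ 2`, and RFO (2):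
`s4 f R = ∑_{p ∋ R} (tf f (N.nb p) - 1) ≥ 1`.  HLN: a singular point `Y` with `tf f U ≥ 2` for all generators `U ∋ Y`; then `X + del Y` has the property, contradicting the maximality. -/
def StEXA : Prop :=
  ∀ {F V : Type} [Field F] [AddCommGroup V] [Module F V] [Finite F] [Finite V] [FiniteDimensional F V] (φ : Form F V)
    (T : Finset (ℙ F V)), Mn φ T → ∃ X : ℙ F V → ℤ, XX φ T X

/-- **EXB** (properties of `X`; hypotheses HNB, RFO, LBD, HRS, PSH, MNB, TAN).  Proof.  `f = chi T - X` has `tf f U = 1` for all generators, so RFO (2) (for a generator `U ∋ R`, all terms `0`) gives `s4 f R = 0`, i.e.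
(1) `s4 (chi T) R = nf X R + 32 X R` for singular `R`.  (2) for `z ∈ T` let `U ∋ z` be tangent (MNB); TAN (a): `s4 (chi T) z ≥ 2`, and `X z = 0`.  (3) `R` singular, `R ∉ T`, `X R = 0`: there is a generator `U ∋ R` with `tf X U = 0`: with
`w`, `resForm` and `g = pu ι R.rep X` (`∑ g = nf X R ≤ 10 < 33`) LBD (contrapositive) gives a generator `W0` of the residue with `tf g W0 ≤ 0`, and `tf X (lift W0) = tf g W0 + X R ≤ 0`.  So `tt T U = 1`; TAN (a) for `R`:
`nf X R = s4 (chi T) R` is `≥ 2` and not `3`, `4`. -/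
def StEXB : Prop :=
  ∀ {F V : Type} [Field F] [AddCommGroup V] [Module F V] [Finite F] [Finite V] [FiniteDimensional F V] (φ : Form F V)
    (T : Finset (ℙ F V)) (X : ℙ F V → ℤ), Mn φ T → XX φ T X →
  (∀ R : ℙ F V, φ.Sing R.rep → s4 φ.toPolar (chi T) R = nf φ.toPolar X R + 32 * X R) ∧
  (∀ z ∈ T, 2 ≤ nf φ.toPolar X z) ∧
  (∀ R : ℙ F V, φ.Sing R.rep → R ∉ T → X R = 0 → nf φ.toPolar X R = 2 ∨ 5 ≤ nf φ.toPolar X R)

/-- **AVL** (a line avoiding few functionals).  Proof.  `ℙ F (Dual F W)` has `21` points; each `g ∈ Y` restricted to `W` is nonzero and defines one of them.  Choose a point `G` different from these; `m` = the (image in `V` of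
the) kernel of `G.rep`, of dimension `2`; a functional `g` vanishing on `m` is a multiple of `G.rep` on `W`. -/
def StAVL : Prop :=
  ∀ {F V : Type} [Field F] [AddCommGroup V] [Module F V] [Finite F] [Finite V] [FiniteDimensional F V] (W : Submodule F V)
    (Y : Finset (Dual F V)), Nat.card F = 4 → finrank F W = 3 → (∀ g ∈ Y, ¬ W ≤ LinearMap.ker g) → Y.card ≤ 20 →
  ∃ m : Submodule F V, m ≤ W ∧ finrank F m = 2 ∧ ∀ g ∈ Y, ¬ m ≤ LinearMap.ker g

/-- **LHP** (a line off ten points; hypotheses HF, HRS, LOW, AVL).  `x, x'` singular, not perpendicular, `h = ⟨x, x'⟩`, `Y` a set of at most `20` singular points outside `h`.  Then there is a totally singular line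
`m ≤ h^⊥` such that no `y ∈ Y` is perpendicular to `m`, and `u ∈ h^⊥`, `u ⊥ m`, with `f u u = 1`.  Proof.  `φ₀ = resForm φ hx hx'` lives on `H = perp2 φ x x' = h^⊥` (`Hs φ₀ 3`).  For `y ∈ Y` write `y = y_h + y_H` (`V = h ⊕ H`), `y_H ≠ 0`.  The set `B` of
the points `⟨y_H⟩` with `y_H` singular has at most `20 < 35` elements, so some generator `W` of `φ₀` (dimension `3`, as a subspace of `V`: its image) contains none of them.  Then no `y ∈ Y` is perpendicular to `W`: otherwise `y_H ∈ H` is perpendicular to `W`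
(as `y_h ⊥ H`), and `y_H ∈ W` (`W^⊥ ⊓ H = W`: dimension `6 - 3`; nondegeneracy of `φ₀`), so it is singular and its point is in `B`.  AVL with the functionals `φ.f y.rep`, `y ∈ Y`: `m ≤ W`.  `M = H ⊓ m^⊥` has dimension `4`
(at least; `m^⊥ ⊓ H` in the nondegenerate `H` of dimension `6`).  If all `u ∈ M` were singular then `f u u' = 0` on `M` (`0 = f (u + c u') (u + c u') = a + a ^ 2`, `a = c f u u'` arbitrary) so
`M ⊔ span {x}` would be totally singular of dimension `5 > 4` (`gen_finrank_le`).  So some `u ∈ M` has `f u u = 1`. -/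
def StLHP : Prop :=
  ∀ {F V : Type} [Field F] [AddCommGroup V] [Module F V] [Finite F] [Finite V] [FiniteDimensional F V] (φ : Form F V),
  Hs φ 4 → ∀ x x' : V, φ.Sing x → φ.Sing x' → φ.f x' x ≠ 0 → ∀ Y : Finset (ℙ F V), Y.card ≤ 20 →
  (∀ y ∈ Y, φ.Sing y.rep ∧ y.rep ∉ Submodule.span F {x} ⊔ Submodule.span F {x'}) →
  ∃ (m : Submodule F V) (u : V), φ.toPolar.TS m ∧ finrank F m = 2 ∧ m ≤ perp2 φ x x' ∧ u ∈ perp2 φ x x' ∧
    (∀ a ∈ m, φ.f u a = 0) ∧ φ.f u u = 1 ∧ ∀ y ∈ Y, ¬ m ≤ LinearMap.ker (φ.f y.rep)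

/-- **COL** (the points of `X` are pairwise perpendicular; hypotheses HF, HRS, DCT, PSH, EXC, EXB, LHP).  Proof.  Let `X x, X x' ≥ 1`, `x, x'` not perpendicular, `h = ⟨x, x'⟩`, `Y` = the points `y ∉ h` with `X y > 0`
(at most `8` points, singular).  LHP: `m`, `u`.  `h` contains `n` with `f n n = 1` (`n = x + c x'` with `a + a ^ 2 = 1` for `a = c f x x'`).  `w = n + u` is singular (`f w w = 1 + 1`), perpendicular to `m`, not in `m` (`w ∉ h^⊥`, as `n ∉ h^⊥`), so
`π = m ⊔ span {w}` is totally singular of dimension `3`.  No `y` with `X y > 0` is perpendicular to `π`: `y ∈ Y` is not perpendicular to `m`; a singular `y ∈ h`, `y ≠ 0`, is not perpendicular to `n` (in the nondegenerate `h`, `y^⊥ ⊓ h = ⟨y⟩`, and `n` is not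
singular), and `y ⊥ u`.  Let `U ⊇ π` be a generator: `tf X U = 0` (a point of `U` is perpendicular to `π`), so `tt T U = 1`.  With `c R = nf X R`: DCT for `π`: `∑_{R ∈ π} c R = 5 * 10 + 16 * 0 = 50`, DCT for `m`:
`∑_{R ∈ m} c R = 10 + 4 np X m ≥ 10 + 4 * 2 = 18` (`x, x' ⊥ m`).  The `16` points `R ∈ π`, `R ∉ m` have `c R ≥ 2` (EXB; `X R = 0`).  So `∑_{R ∈ m} c R = 18`.  At most one point of `m` is in `T`; if the other (at least four) points of `m` had `c R ≥ 5` the sum would be `≥ 20`; so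
(EXB (3)) some `R ∈ m`, `R ∉ T`, has `nf X R = 2`, `X R = 0`.  `x, x' ⊥ R`, so `nf X R = 2` means `X x = X x' = 1` and no other point perpendicular to `R` has `X > 0`.  In the residue of `R` (`exists_pair`, `resForm`, HRS, `Hs _ 3`) let
`g = pu ι R.rep (chi T) ≥ 0`, `Q, Q'` the projections of `x, x'` (singular, not perpendicular: PSH).  For a generator `W0`: `tf g W0 = tt T (lift W0) = 1 + tf X (lift W0) = 1 + [x ∈ lift W0] + [x' ∈ lift W0] = 1 + [Q ∈ W0] + [Q' ∈ W0]`.
This contradicts EXC (3). -/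
def StCOL : Prop :=
  ∀ {F V : Type} [Field F] [AddCommGroup V] [Module F V] [Finite F] [Finite V] [FiniteDimensional F V] (φ : Form F V)
    (T : Finset (ℙ F V)) (X : ℙ F V → ℤ), Mn φ T → XX φ T X →
  ∀ x x' : ℙ F V, 0 < X x → 0 < X x' → φ.f x.rep x'.rep = 0

/-- **DBL** (double blocking multisets of ten points in `PG(2,4)`).  `K` has total `10` and every line (subspace of dimension `2`) has weight `≥ 2`.  Then `K` is the sum of two lines: there are lines `L, M` with
`K y = [y ∈ L] + [y ∈ M]`.  Proof.  For a point `P`: the sum of the weights of the five lines on `P` is `10 + 4 K P`.  If `K P = 0` all five lines on `P` have weight exactly `2`.  So a line of weight `≥ 3` has all its points in the support.  There is a point `P` with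
`K P ≥ 1`, the sum is `≥ 14`, so there is a line `L` of weight `≥ 3`, and `K ≥ 1` on `L`.  `K' = K - 1_L` has total `5` and weight `≥ 1` on every line `≠ L` (these meet `L` in one point).  A point `P ∉ L` with `K' P = 0`: the five lines on `P` have
weight `1` each.  So if a line `M ≠ L` has weight `K' M ≥ 2` then its four points outside `L` have `K' ≥ 1`; the remaining weight `1` is at one point `Q`; if `Q ≠ A := L ⊓ M` then some line on `A` other than `L`, `M` (three lines) does not contain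
`Q` and has `K'`-weight `0`: contradiction; so `Q = A` and `K' = 1_M`.  If all lines `M ≠ L` have `K' M = 1`: two different points of the support of `K'` (or a point of multiplicity `≥ 2`) not both on `L` would be on a line `≠ L` of weight `≥ 2`; so `K'` is supported
on `L` and for `P ∈ L` a line `M ≠ L` on `P` gives `K' P = 1`: `K' = 1_L`, `M = L`.  (Write lines through `P` as kernels or as `line P _`; the five lines through `P` partition the other points.) -/
def StDBL : Prop :=
  ∀ {F E : Type} [Field F] [AddCommGroup E] [Module F E] [Finite F] [Finite E] [FiniteDimensional F E] (K : ℙ F E → ℕ),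
  Nat.card F = 4 → finrank F E = 3 → ∑ y, K y = 10 →
  (∀ L : Submodule F E, finrank F L = 2 → 2 ≤ ∑ y ∈ pts L, K y) →
  ∃ L M : Submodule F E, finrank F L = 2 ∧ finrank F M = 2 ∧
    ∀ y : ℙ F E, K y = (if y.rep ∈ L then 1 else 0) + (if y.rep ∈ M then 1 else 0)

/-- **FIN** (no set of eleven points of `PG(3,4)` meets every plane in `0` or at least `3` points; hypothesis DBL).  Proof.  Suppose `S` is such a set.  For `z ∈ S` let `E = W / z` (dimension `3`) and `K_z Q` = the number of points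
`y ∈ S`, `y ≠ z`, on the line (through `z`) `Q`: total `10`, and a line of `E` is a plane `H` on `z`, of weight `|S ∩ H| - 1 ≥ 2`.  DBL: `K_z = 1_L + 1_M`.  So all lines meet `S` in at most `3` points (*), and if `L ≠ M` then exactly one line on `z` has
`3` points of `S`, if `L = M` then five lines on `z` have `3` points and `S` lies in the plane `L`.  First case: `L ≠ M` for all `z ∈ S`: the lines with `3` points of `S` partition `S`, `3 ∣ 11`, contradiction.  Second case: `S` lies in a plane `H₀`; then for every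
`z ∈ S` the function `K_z` is supported on the line `H₀ / z`, so `L = M = H₀ / z` and every line of `H₀` on `z` has exactly `3` points of `S`.  Let `P ∈ H₀`, `P ∉ S` (`21 > 11`): the lines of `H₀` on `P` have `0` or `3` points of `S` and partition `S`: `3 ∣ 11`, contradiction. -/
def StFIN : Prop :=
  ∀ {F W : Type} [Field F] [AddCommGroup W] [Module F W] [Finite F] [Finite W] [FiniteDimensional F W] (S : Finset (ℙ F W)),
  Nat.card F = 4 → finrank F W = 4 → S.card = 11 →
  ¬ ∀ H : Submodule F W, finrank F H = 3 → tt S H = 0 ∨ 3 ≤ tt S H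

/-- **FFO** (end of rank four; hypotheses THR, EXA, EXB, COL, FIN).  Proof.  EXA: `X`.  By COL the span of the points with `X > 0` is totally singular (`perp_span`, `TS`), so contained in a generator `W`, `tf X W = 10`, `tt T W = 11`.
Let `S` = the points of `↥W` corresponding to the points of `T` in `W` (`11` points).  Let `H ≤ W`, `dim H = 3`, contain a point `z ∈ T`; we show `tt T H ≥ 3`, which contradicts FIN.  Let `U ≠ W` be a generator containing `H` (THR), `U ⊓ W = H`, and `y ∈ U`, `y ∉ W` a point.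
`W ⊓ y^⊥ = H` (dimension `3`, `Gen.not_le`), so `nf X y = tf X H` (`X` is supported in `W`), and `nf X y ≥ 2` (EXB (2) if `y ∈ T`, EXB (3) otherwise, `X y = 0`).  `tt T U = 1 + tf X U = 1 + tf X H ≥ 3`.  Finally
`T ∩ U ⊆ H`: EXB (1) for `z`: `nn T z - 33 + 32 = nf X z + 32 X z = 10`, so `nn T z = 11`, and the `11` points of `T` in `W` are perpendicular to `z`; hence the points of `T` in `U` (perpendicular to `z`) are in `W`. -/
def StFFO : Prop :=
  ∀ {F V : Type} [Field F] [AddCommGroup V] [Module F V] [Finite F] [Finite V] [FiniteDimensional F V] (φ : Form F V)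
    (T : Finset (ℙ F V)), ¬ Mn φ T

/-- **STP** (cones and the induction step; hypotheses HRS, HF).  Proof.  (1) a singular `v ≠ 0` exists (a generator has dimension `r + 1 ≥ 1`), `exists_pair`, `resForm`, `IsRes.cone`.  (2) upper bound: (1).  Lower bound: as `SympMin.step` (`Polar.core`, `IsRes.project`). -/
def StSTP : Prop :=
  ∀ (F : Type) [Field F] (r m : ℕ),
  ((∀ {V : Type} [AddCommGroup V] [Module F V] [FiniteDimensional F V] (φ : Form F V), Hs φ r →
      ∃ T : Finset (ℙ F V), φ.toPolar.Block T ∧ T.card ≤ m) →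
    ∀ {V : Type} [AddCommGroup V] [Module F V] [FiniteDimensional F V] (φ : Form F V), Hs φ (r + 1) →
      ∃ T : Finset (ℙ F V), φ.toPolar.Block T ∧ T.card ≤ 4 * m) ∧
  (2 ≤ r → 4 ∣ m → HM F r m → HM F (r + 1) (4 * m))

end Pool.Agent.Helper45.U4
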